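import Mathlib
import Pool.Agent.H422.MF.North

/-!
# Rational maps on `P¹(K) = OnePoint K`, chordal distances
-/

set_option autoImplicit false

open Polynomial OnePoint

namespace Pool.Agent.H422.MR

open Pool.Agent.H422.HE Pool.Agent.H422.UC

section basic

variable {K : Type*} [Field K]

/-- the point `[a : b]` of `P¹(K)` -/
noncomputable def pt (a b : K) : OnePoint K := by
  classical exact if b = 0 then ∞ else ((a / b : K) : OnePoint K)

lemma pt_zero (a : K) : pt a 0 = ∞ := by simp [pt]

lemma pt_ne {a b : K} (h : b ≠ 0) : pt a b = ((a / b : K) : OnePoint K) := by simp [pt, h]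

/-- The rational map `P / Q` on `P¹(K)`; its value at `∞` is the quotient of the coefficients of
degree `max (deg P) (deg Q)`. -/
noncomputable def rat (P Q : K[X]) : OnePoint K → OnePoint K
  | ∞ => pt (P.coeff (max P.natDegree Q.natDegree)) (Q.coeff (max P.natDegree Q.natDegree))
  | (z : K) => pt (P.eval z) (Q.eval z)

lemma rat_infty (P Q : K[X]) : rat P Q ∞ =
    pt (P.coeff (max P.natDegree Q.natDegree)) (Q.coeff (max P.natDegree Q.natDegree)) := rfl

lemma rat_coe (P Q : K[X]) (z : K) : rat P Q (z : OnePoint K) = pt (P.eval z) (Q.eval z) := rfl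

/-- numerator of a point -/
def nu : OnePoint K → K
  | ∞ => 1
  | (z : K) => z

/-- denominator of a point -/
def de : OnePoint K → K
  | ∞ => 0
  | (_ : K) => 1

@[simp] lemma nu_infty : nu (∞ : OnePoint K) = 1 := rfl
@[simp] lemma de_infty : de (∞ : OnePoint K) = 0 := rfl
@[simp] lemma nu_coe (z : K) : nu (z : OnePoint K) = z := rfl
@[simp] lemma de_coe (z : K) : de (z : OnePoint K) = 1 := rfl

lemma nu_de_ne (p : OnePoint K) : nu p ≠ 0 ∨ de p ≠ 0 := by
  induction p using OnePoint.rec with
  | infty => left; simp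
  | coe z => right; simp

/-- normalisation of homogeneous coordinates -/
lemma pt_scale {a b : K} (h : a ≠ 0 ∨ b ≠ 0) : ∃ c : K, c ≠ 0 ∧ a = c * nu (pt a b) ∧
    b = c * de (pt a b) := by
  by_cases hb : b = 0
  · subst hb
    rw [pt_zero]
    exact ⟨a, by simpa using h, by simp, by simp⟩
  · rw [pt_ne hb]
    exact ⟨b, hb, by simp; field_simp, by simp⟩

lemma eq_of_cross {p q : OnePoint K} (h : nu p * de q = nu q * de p) : p = q := by
  induction p using OnePoint.rec with
  | infty =>
    induction q using OnePoint.rec with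
    | infty => rfl
    | coe w => simp at h
  | coe z =>
    induction q using OnePoint.rec with
    | infty => simp at h
    | coe w => simp at h; rw [h]

end basic

section dist

variable {K : Type*} [Field K] {Γ : Type*} [LinearOrderedCommGroupWithZero Γ] (v : Valuation K Γ)

/-- norm of the normalised coordinates -/
def nrm (p : OnePoint K) : Γ := max (v (nu p)) (v (de p))

lemma nrm_ne (p : OnePoint K) : nrm v p ≠ 0 := by
  unfold nrm
  rcases nu_de_ne p with h | h
  · exact ne_of_gt (lt_of_lt_of_le (zero_lt_iff.mpr ((Valuation.ne_zero_iff _).mpr h))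
      (le_max_left _ _))
  · exact ne_of_gt (lt_of_lt_of_le (zero_lt_iff.mpr ((Valuation.ne_zero_iff _).mpr h))
      (le_max_right _ _))

/-- twisted chordal distance -/
def dl (ζ : K) (p q : OnePoint K) : Γ :=
  v (nu p * de q - ζ * (nu q * de p)) / (nrm v p * nrm v q)

variable {v}

lemma dl_le {ζ : K} (hζ : v ζ = 1) (p q : OnePoint K) : dl v ζ p q ≤ 1 := by
  unfold dl
  rw [div_le_one₀ (zero_lt_iff.mpr (mul_ne_zero (nrm_ne v p) (nrm_ne v q)))]
  refine (v.map_sub _ _).trans (max_le ?_ ?_)
  · rw [map_mul]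
    exact mul_le_mul' (le_max_left _ _) (le_max_right _ _)
  · rw [map_mul, map_mul, hζ, one_mul, mul_comm (nrm v p)]
    exact mul_le_mul' (le_max_left _ _) (le_max_right _ _)

lemma dl_one_eq_zero {p q : OnePoint K} (h : dl v 1 p q = 0) : p = q := by
  unfold dl at h
  rw [div_eq_zero_iff] at h
  rcases h with h | h
  · rw [Valuation.zero_iff, one_mul, sub_eq_zero] at h
    exact eq_of_cross h
  · exact absurd h (mul_ne_zero (nrm_ne v p) (nrm_ne v q))

/-- chordal distance in homogeneous coordinates -/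
lemma dl_pt {a b a' b' : K} (h : a ≠ 0 ∨ b ≠ 0) (h' : a' ≠ 0 ∨ b' ≠ 0) :
    dl v 1 (pt a b) (pt a' b') =
      v (a * b' - a' * b) / (max (v a) (v b) * max (v a') (v b')) := by
  obtain ⟨c, hc, h1, h2⟩ := pt_scale h
  obtain ⟨c', hc', h1', h2'⟩ := pt_scale h'
  generalize pt a b = p at h1 h2 ⊢
  generalize pt a' b' = q at h1' h2' ⊢
  subst h1 h2 h1' h2'
  have hvc : v c ≠ 0 := (Valuation.ne_zero_iff _).mpr hc
  have hvc' : v c' ≠ 0 := (Valuation.ne_zero_iff _).mpr hc'
  have e1 : max (v (c * nu p)) (v (c * de p)) = v c * nrm v p := by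
    rw [map_mul, map_mul, nrm, mul_max]
  have e2 : max (v (c' * nu q)) (v (c' * de q)) = v c' * nrm v q := by
    rw [map_mul, map_mul, nrm, mul_max]
  have e3 : c * nu p * (c' * de q) - c' * nu q * (c * de p) =
      c * c' * (nu p * de q - 1 * (nu q * de p)) := by ring
  rw [e1, e2, e3, map_mul, map_mul, dl]
  rw [mul_mul_mul_comm, mul_div_mul_left _ _ (mul_ne_zero hvc hvc')]

end dist

/-! ### periodic points of nonexpanding maps -/

section gen

variable {X : Type*} {Γ : Type*} [LinearOrderedCommGroupWithZero Γ]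

/-- Nonexpanding maps: the first step does not contract periodic pairs. -/
lemma per_step {F : X → X} {δ : X → X → Γ} {C : X → Prop} (hC : ∀ p, C p → C (F p))
    (hle : ∀ p q, C p → C q → δ (F p) (F q) ≤ δ p q) {p q : X} (hp : C p) (hq : C q)
    (pp : Per F p) (pq : Per F q) : δ p q ≤ δ (F p) (F q) := by
  obtain ⟨n, hn, e1, e2⟩ := common_period pp pq
  have key : ∀ k, C (F^[k + 1] p) ∧ C (F^[k + 1] q) ∧ δ (F^[k + 1] p) (F^[k + 1] q) ≤
      δ (F p) (F q) := by
    intro k
    induction k with
    | zero => exact ⟨hC _ hp, hC _ hq, le_rfl⟩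
    | succ k ih =>
      rw [Function.iterate_succ_apply' _ (k + 1) p, Function.iterate_succ_apply' _ (k + 1) q]
      exact ⟨hC _ ih.1, hC _ ih.2.1, (hle _ _ ih.1 ih.2.1).trans ih.2.2⟩
  have := (key (n - 1)).2.2
  rwa [Nat.sub_add_cancel hn, e1, e2] at this

lemma not_pre_of_lt' {F : X → X} {C : X → Prop} {α : Type*} [Preorder α] {μ : X → α}
    (hC : ∀ x, C x → C (F x)) (hμ : ∀ x, C x → μ x < μ (F x)) {x : X} (hx : C x)
    (px : Pre F x) : False := by
  have hCn : ∀ (n : ℕ), C (F^[n] x) := by
    intro n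
    induction n with
    | zero => exact hx
    | succ n ih => rw [Function.iterate_succ_apply']; exact hC _ ih
  have mono : StrictMono (fun n : ℕ => μ (F^[n] x)) := by
    apply strictMono_nat_of_lt_succ
    intro n
    rw [Function.iterate_succ_apply']
    exact hμ _ (hCn n)
  obtain ⟨m, n, hmn, he⟩ := px
  have := mono hmn
  simp only [he] at this
  exact lt_irrefl _ this

end gen

end Pool.Agent.H422.MR
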