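import Mathlib
import Pool.Agent.H422.MR.Pt

/-!
# Northcott for rational maps on `P¹(K)`
-/

set_option autoImplicit false

open Polynomial OnePoint

namespace Pool.Agent.H422.MR

open Pool.Agent.H422.HE Pool.Agent.H422.UC

section cert

variable {K : Type*} [Field K]

/-- homogenisation -/
noncomputable def hm (U : K[X]) (M : ℕ) : MvPolynomial (Fin 2) K :=
  ∑ i ∈ Finset.range (M + 1), MvPolynomial.C (U.coeff i) *
    (MvPolynomial.X 0 ^ i * MvPolynomial.X 1 ^ (M - i))

lemma hm_homog (U : K[X]) (M : ℕ) : (hm U M).IsHomogeneous M := by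
  apply MvPolynomial.IsHomogeneous.sum
  intro i hi
  rw [Finset.mem_range] at hi
  have h1 : ((MvPolynomial.X 0 : MvPolynomial (Fin 2) K) ^ i * MvPolynomial.X 1 ^ (M - i)).IsHomogeneous
      (i + (M - i)) :=
    (MvPolynomial.isHomogeneous_X_pow _ _).mul (MvPolynomial.isHomogeneous_X_pow _ _)
  have h2 := (MvPolynomial.isHomogeneous_C (Fin 2) (U.coeff i)).mul h1
  convert h2 using 1
  omega

lemma hm_eval_coe {U : K[X]} {M : ℕ} (hU : U.natDegree ≤ M) (z : K) :
    (hm U M).eval ![z, 1] = U.eval z := by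
  rw [eval_eq_sum_range' (Nat.lt_succ_of_le hU)]
  simp [hm]

lemma hm_eval_inf (U : K[X]) (M : ℕ) : (hm U M).eval ![1, 0] = U.coeff M := by
  unfold hm
  rw [Finset.sum_range_succ, map_add]
  simp only [map_sum, map_mul, map_pow, MvPolynomial.eval_C, MvPolynomial.eval_X]
  rw [Finset.sum_eq_zero]
  · simp
  · intro i hi
    rw [Finset.mem_range] at hi
    simp [zero_pow (show M - i ≠ 0 by omega)]

lemma cert_aux {P Q : K[X]} (hcop : IsCoprime P Q) (hle : Q.natDegree ≤ P.natDegree)
    (hD : 1 ≤ P.natDegree) (M : ℕ) (hM : P.natDegree ≤ M) :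
    ∃ U V : K[X], U.natDegree ≤ M ∧ V.natDegree ≤ M ∧
      U * P + V * Q = X ^ (M + P.natDegree) := by
  classical
  obtain ⟨U, V, hUV⟩ := hcop
  have hP0 : P ≠ 0 := by rintro rfl; simp at hD
  set k := M + P.natDegree with hk
  set V2 := (X ^ k * V) % P with hV2
  have hV2deg : V2.natDegree < P.natDegree := natDegree_mod_lt _ (by omega)
  have hdvd : P ∣ X ^ k - V2 * Q := by
    have h1 : X ^ k * V = P * ((X ^ k * V) / P) + V2 := (EuclideanDomain.div_add_mod _ _).symm
    have h2 : (X : K[X]) ^ k - V2 * Q = P * (X ^ k * U + (X ^ k * V) / P * Q) := by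
      have h3 : (X : K[X]) ^ k = X ^ k * (U * P + V * Q) := by rw [hUV, mul_one]
      calc (X : K[X]) ^ k - V2 * Q = X ^ k * (U * P + V * Q) - V2 * Q := by rw [← h3]
        _ = X ^ k * U * P + (X ^ k * V) * Q - V2 * Q := by ring
        _ = X ^ k * U * P + (P * ((X ^ k * V) / P) + V2) * Q - V2 * Q := by rw [← h1]
        _ = _ := by ring
    exact ⟨_, h2⟩
  obtain ⟨U2, hU2⟩ := hdvd
  refine ⟨U2, V2, ?_, by omega, by rw [mul_comm U2, ← hU2]; ring⟩
  have h4 : (X ^ k - V2 * Q : K[X]).natDegree ≤ k := by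
    refine (natDegree_sub_le _ _).trans (max_le (natDegree_X_pow_le k) ?_)
    refine natDegree_mul_le.trans ?_
    omega
  by_cases hU0 : U2 = 0
  · rw [hU0]; simp
  · rw [hU2, natDegree_mul hP0 hU0] at h4
    omega

lemma cert {P Q : K[X]} (hcop : IsCoprime P Q) (hD : 1 ≤ max P.natDegree Q.natDegree) :
    ∃ (M : ℕ) (U V U2 V2 : K[X]), U.natDegree < M ∧ V.natDegree < M ∧ U * P + V * Q = 1 ∧
      U2.natDegree ≤ M ∧ V2.natDegree ≤ M ∧
      U2 * P + V2 * Q = X ^ (M + max P.natDegree Q.natDegree) := by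
  obtain ⟨U, V, hUV⟩ := id hcop
  set M := max P.natDegree Q.natDegree + U.natDegree + V.natDegree + 1 with hM
  rcases le_total Q.natDegree P.natDegree with h | h
  · obtain ⟨U2, V2, h1, h2, h3⟩ := cert_aux hcop h (by rwa [max_eq_left h] at hD) M (by omega)
    exact ⟨M, U, V, U2, V2, by omega, by omega, hUV, h1, h2, by rw [max_eq_left h]; exact h3⟩
  · obtain ⟨U2, V2, h1, h2, h3⟩ := cert_aux hcop.symm h (by rwa [max_eq_right h] at hD) M (by omega)
    exact ⟨M, U, V, V2, U2, by omega, by omega, hUV, h2, h1, by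
      rw [max_eq_right h, ← h3]; ring⟩

end cert

section height

variable (K : Type) [Field K] [NumberField K]

open Height

/-- the vector of homogeneous coordinates -/
def vc {K : Type*} [Field K] (p : OnePoint K) : Fin 2 → K := ![nu p, de p]

lemma rat_eval {K : Type*} [Field K] {P Q : K[X]} (p : OnePoint K) :
    rat P Q p = pt ((hm P (max P.natDegree Q.natDegree)).eval (vc p))
      ((hm Q (max P.natDegree Q.natDegree)).eval (vc p)) := by
  induction p using OnePoint.rec with
  | infty =>
    simp only [vc, nu_infty, de_infty]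
    rw [hm_eval_inf, hm_eval_inf, rat_infty]
  | coe z =>
    simp only [vc, nu_coe, de_coe]
    rw [hm_eval_coe (le_max_left _ _), hm_eval_coe (le_max_right _ _), rat_coe]

variable {K}

lemma height_pt {a b : K} (h : a ≠ 0 ∨ b ≠ 0) : mulHeight (vc (pt a b)) = mulHeight ![a, b] := by
  obtain ⟨c, hc, h1, h2⟩ := pt_scale h
  have : ![a, b] = c • vc (pt a b) := by
    ext i
    fin_cases i
    · simpa [vc] using h1
    · simpa [vc] using h2
  rw [this, mulHeight_smul_eq_mulHeight _ hc]

omit [NumberField K] in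
lemma cert_eval {P Q U V : K[X]} {M D : ℕ} (hU : U.natDegree ≤ M) (hV : V.natDegree ≤ M)
    (hP : P.natDegree ≤ D) (hQ : Q.natDegree ≤ D) (p : OnePoint K) :
    (hm U M).eval (vc p) * (hm P D).eval (vc p) + (hm V M).eval (vc p) * (hm Q D).eval (vc p) =
      (hm (U * P + V * Q) (M + D)).eval (vc p) := by
  induction p using OnePoint.rec with
  | infty =>
    simp only [vc, nu_infty, de_infty]
    rw [hm_eval_inf, hm_eval_inf, hm_eval_inf, hm_eval_inf, hm_eval_inf, coeff_add,
      coeff_mul_add_eq_of_natDegree_le hU hP, coeff_mul_add_eq_of_natDegree_le hV hQ]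
  | coe z =>
    simp only [vc, nu_coe, de_coe]
    rw [hm_eval_coe hU, hm_eval_coe hV, hm_eval_coe hP, hm_eval_coe hQ, hm_eval_coe, eval_add,
      eval_mul, eval_mul]
    refine (natDegree_add_le _ _).trans (max_le ?_ ?_)
    · exact natDegree_mul_le.trans (by omega)
    · exact natDegree_mul_le.trans (by omega)

/-- growth of heights -/
lemma height_rat {P Q : K[X]} (hcop : IsCoprime P Q) (hD : 1 ≤ max P.natDegree Q.natDegree) :
    ∃ C > 0, ∀ p : OnePoint K, C * mulHeight (vc p) ^ (max P.natDegree Q.natDegree) ≤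
      mulHeight (vc (rat P Q p)) := by
  classical
  obtain ⟨M, U, V, U2, V2, hU, hV, hUV, hU2, hV2, hUV2⟩ := cert hcop hD
  set D := max P.natDegree Q.natDegree with hDdef
  set q : Fin 2 × Fin 2 → MvPolynomial (Fin 2) K :=
    fun a => ![![hm U2 M, hm V2 M], ![hm U M, hm V M]] a.1 a.2 with hq
  have hqh : ∀ a, (q a).IsHomogeneous M := by
    rintro ⟨i, j⟩
    fin_cases i <;> fin_cases j <;> exact hm_homog _ _
  obtain ⟨C, hC, hCp⟩ := mulHeight_eval_ge' (M := M) (N := D) hqh
  refine ⟨C, hC, fun p => ?_⟩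
  have hPD : P.natDegree ≤ D := le_max_left _ _
  have hQD : Q.natDegree ≤ D := le_max_right _ _
  have e1 := cert_eval (M := M) (D := D) hU2 hV2 hPD hQD p
  have e2 := cert_eval (M := M) (D := D) hU.le hV.le hPD hQD p
  rw [hUV2] at e1
  rw [hUV] at e2
  have f1 : (hm (X ^ (M + D) : K[X]) (M + D)).eval (vc p) = (nu p) ^ (M + D) := by
    induction p using OnePoint.rec with
    | infty => simp only [vc, nu_infty, de_infty]; rw [hm_eval_inf]; simp
    | coe z => simp only [vc, nu_coe, de_coe]; rw [hm_eval_coe (natDegree_X_pow_le _)]; simp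
  have f2 : (hm (1 : K[X]) (M + D)).eval (vc p) = (de p) ^ (M + D) := by
    induction p using OnePoint.rec with
    | infty =>
      simp only [vc, nu_infty, de_infty]
      rw [hm_eval_inf, zero_pow (by omega), coeff_one, if_neg (by omega)]
    | coe z =>
      simp only [vc, nu_coe, de_coe]
      rw [hm_eval_coe (by simp)]
      simp
  rw [f1] at e1
  rw [f2] at e2
  have key := hCp ![hm P D, hm Q D] (x := vc p) (by
    intro k
    rw [Fin.sum_univ_two]
    fin_cases k
    · simpa [hq, vc] using e1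
    · simpa [hq, vc] using e2)
  refine key.trans (le_of_eq ?_)
  have hne : (hm P D).eval (vc p) ≠ 0 ∨ (hm Q D).eval (vc p) ≠ 0 := by
    by_contra hcon
    push Not at hcon
    rw [hcon.1, hcon.2, mul_zero, mul_zero, add_zero] at e1 e2
    rcases nu_de_ne p with h | h
    · exact h (pow_eq_zero_iff (by omega) |>.mp e1.symm)
    · exact h (pow_eq_zero_iff (by omega) |>.mp e2.symm)
  rw [rat_eval, height_pt hne]
  congr 1
  ext i
  fin_cases i <;> simp [hDdef]

/-- **Northcott** for rational maps of degree at least two. -/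
theorem northcott_rat {P Q : K[X]} (hcop : IsCoprime P Q)
    (hD : 2 ≤ max P.natDegree Q.natDegree) : {p : OnePoint K | Pre (rat P Q) p}.Finite := by
  obtain ⟨C, hC, hCp⟩ := height_rat hcop (by omega)
  set D := max P.natDegree Q.natDegree with hDdef
  have hfin : {p : OnePoint K | mulHeight (vc p) ≤ max 1 C⁻¹}.Finite := by
    refine (((Set.finite_singleton (∞ : OnePoint K))).union
      ((NumberField.finite_setOfPred_mulHeight₁_le K (max 1 C⁻¹)).image (fun z : K => (z : OnePoint K)))).subset ?_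
    intro p hp
    induction p using OnePoint.rec with
    | infty => left; rfl
    | coe z =>
      right
      refine ⟨z, ?_, rfl⟩
      rw [Set.mem_ofPred_eq, mulHeight₁_eq_mulHeight]
      simpa [vc] using hp
  refine hfin.subset ?_
  intro p hp
  rw [Set.mem_ofPred_eq]
  by_contra hcon
  rw [not_le] at hcon
  have key : ∀ p : OnePoint K, max 1 C⁻¹ < mulHeight (vc p) →
      mulHeight (vc p) < mulHeight (vc (rat P Q p)) := by
    intro p hp
    refine lt_of_lt_of_le ?_ (hCp p)
    have h1 : 1 < mulHeight (vc p) := lt_of_le_of_lt (le_max_left _ _) hp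
    have h2 : C⁻¹ < mulHeight (vc p) := lt_of_le_of_lt (le_max_right _ _) hp
    have h3 : mulHeight (vc p) ^ 2 ≤ mulHeight (vc p) ^ D := pow_le_pow_right₀ h1.le hD
    have h4 : 1 < C * mulHeight (vc p) := by
      have := mul_lt_mul_of_pos_left h2 hC
      rwa [mul_inv_cancel₀ hC.ne'] at this
    calc mulHeight (vc p) = 1 * mulHeight (vc p) := (one_mul _).symm
      _ < (C * mulHeight (vc p)) * mulHeight (vc p) :=
        mul_lt_mul_of_pos_right h4 (by linarith)
      _ = C * mulHeight (vc p) ^ 2 := by ring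
      _ ≤ C * mulHeight (vc p) ^ D := mul_le_mul_of_nonneg_left h3 hC.le
  exact not_pre_of_lt' (C := fun p => max 1 C⁻¹ < mulHeight (vc p)) (μ := fun p => mulHeight (vc p))
    (fun p hp => hp.trans (key p hp)) key hcon hp

end height

end Pool.Agent.H422.MR
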