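import Mathlib
import Pool.Agent.H422.MR.Pt
import Pool.Agent.H422.MF.LocQ

/-!
# `z ↦ (P / Q) (s ^ N * z ^ e)` with `deg P = deg Q`: places where `s` is a unit
-/

set_option autoImplicit false

open Polynomial OnePoint

namespace Pool.Agent.H422.MR

open Pool.Agent.H422.HE Pool.Agent.H422.UC Pool.Agent.H422.MF

section defs

variable {K : Type*} [Field K]

/-- the map `z ↦ (P / Q) (s ^ N * z ^ e)` on `P¹(K)` -/
noncomputable def fR (P Q : K[X]) (N e : ℕ) (s : K) : OnePoint K → OnePoint K :=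
  rat (P.comp (C (s ^ N) * X ^ e)) (Q.comp (C (s ^ N) * X ^ e))

/-- the same in the affine coordinate -/
noncomputable def gR (P Q : K[X]) (N e : ℕ) (s : K) : K → K :=
  fun z => P.eval (s ^ N * z ^ e) / Q.eval (s ^ N * z ^ e)

variable {P Q : K[X]} {N e : ℕ} {s : K}

lemma fR_coe (z : K) : fR P Q N e s (z : OnePoint K) =
    pt (P.eval (s ^ N * z ^ e)) (Q.eval (s ^ N * z ^ e)) := by
  simp [fR, rat_coe, eval_comp]

lemma fR_coe_ne {z : K} (h : Q.eval (s ^ N * z ^ e) ≠ 0) : fR P Q N e s (z : OnePoint K) =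
    ((gR P Q N e s z : K) : OnePoint K) := by
  rw [fR_coe, pt_ne h]; rfl

lemma fR_coe_eq {z : K} (h : Q.eval (s ^ N * z ^ e) = 0) :
    fR P Q N e s (z : OnePoint K) = ∞ := by
  rw [fR_coe, h, pt_zero]

lemma pt_mul {c a b : K} (hc : c ≠ 0) : pt (c * a) (c * b) = pt a b := by
  by_cases hb : b = 0
  · rw [hb, mul_zero, pt_zero, pt_zero]
  · rw [pt_ne hb, pt_ne (mul_ne_zero hc hb), mul_div_mul_left _ _ hc]

lemma fR_infty (hs0 : s ≠ 0) (he : 1 ≤ e) (hdeg : P.natDegree = Q.natDegree) :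
    fR P Q N e s ∞ = pt P.leadingCoeff Q.leadingCoeff := by
  have hX : (C (s ^ N) * X ^ e : K[X]).natDegree = e := natDegree_C_mul_X_pow _ _ (pow_ne_zero _ hs0)
  have hX0 : (C (s ^ N) * X ^ e : K[X]).natDegree ≠ 0 := by rw [hX]; omega
  have h1 : ∀ R : K[X], R.natDegree = P.natDegree →
      (R.comp (C (s ^ N) * X ^ e)).coeff (P.natDegree * e) =
      (s ^ N) ^ P.natDegree * R.leadingCoeff := by
    intro R hR
    have h2 : (R.comp (C (s ^ N) * X ^ e)).natDegree = P.natDegree * e := by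
      rw [natDegree_comp, hX, hR]
    rw [← h2, coeff_natDegree, leadingCoeff_comp hX0, leadingCoeff_mul, leadingCoeff_C,
      leadingCoeff_X_pow, mul_one, hR, mul_comm]
  rw [fR, rat_infty, natDegree_comp, natDegree_comp, hX, ← hdeg, max_self, h1 P rfl,
    h1 Q hdeg.symm, pt_mul (pow_ne_zero _ (pow_ne_zero _ hs0))]

lemma eval_reverse {R : K[X]} {w : K} (hw : w ≠ 0) :
    R.eval w = w ^ R.natDegree * R.reverse.eval w⁻¹ := by
  have : Invertible w := invertibleOfNonzero hw
  have h := eval₂_reverse_mul_pow (RingHom.id K) w R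
  rw [invOf_eq_inv] at h
  rw [← eval₂_id, ← h, eval₂_id, mul_comm]

/-- the map in the coordinate at infinity -/
lemma fR_rev (hs0 : s ≠ 0) (he : 1 ≤ e) (hdeg : P.natDegree = Q.natDegree) {p : OnePoint K}
    (hp : nu p ≠ 0) : fR P Q N e s p = pt (P.reverse.eval ((s⁻¹) ^ N * (de p / nu p) ^ e))
      (Q.reverse.eval ((s⁻¹) ^ N * (de p / nu p) ^ e)) := by
  induction p using OnePoint.rec with
  | infty =>
    rw [fR_infty hs0 he hdeg]
    simp only [nu_infty, de_infty, zero_div, zero_pow (show e ≠ 0 by omega), mul_zero]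
    rw [← coeff_zero_eq_eval_zero, ← coeff_zero_eq_eval_zero, coeff_zero_reverse,
      coeff_zero_reverse]
  | coe z =>
    simp only [nu_coe, de_coe] at hp ⊢
    have hW : s ^ N * z ^ e ≠ 0 := mul_ne_zero (pow_ne_zero _ hs0) (pow_ne_zero _ hp)
    have hinv : (s⁻¹) ^ N * (1 / z) ^ e = (s ^ N * z ^ e)⁻¹ := by
      rw [mul_inv, inv_pow, one_div, inv_pow]
    rw [hinv, fR_coe, eval_reverse (R := P) hW, eval_reverse (R := Q) hW, hdeg,
      pt_mul (pow_ne_zero _ hW)]

end defs

section loc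

variable {K : Type*} [Field K] {Γ : Type*} [LinearOrderedCommGroupWithZero Γ] (v : Valuation K Γ)

/-- good reduction of `P / Q` -/
structure GR (P Q : K[X]) : Prop where
  hP : GP v P
  hQ : GP v Q
  bez : ∃ U V : K[X], IntP v U ∧ IntP v V ∧ U * P + V * Q = 1
  deg : P.natDegree = Q.natDegree
  pos : 1 ≤ P.natDegree

variable {v} {P Q : K[X]} {N e : ℕ} {s : K}

lemma int_reverse {R : K[X]} (hR : IntP v R) : IntP v R.reverse := by
  intro i
  rw [coeff_reverse]
  exact hR _

lemma GR.max_one (h : GR v P Q) {w : K} (hw : v w ≤ 1) :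
    max (v (P.eval w)) (v (Q.eval w)) = 1 := by
  refine le_antisymm (max_le (eval_le_one v h.hP.int hw) (eval_le_one v h.hQ.int hw)) ?_
  obtain ⟨U, V, hU, hV, hUV⟩ := h.bez
  have h1 : U.eval w * P.eval w + V.eval w * Q.eval w = 1 := by
    rw [← eval_mul, ← eval_mul, ← eval_add, hUV, eval_one]
  have h2 := v.map_add (U.eval w * P.eval w) (V.eval w * Q.eval w)
  rw [h1, map_one, map_mul, map_mul] at h2
  refine h2.trans (max_le_max ?_ ?_)
  · calc v (U.eval w) * v (P.eval w) ≤ 1 * v (P.eval w) :=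
        mul_le_mul' (eval_le_one v hU hw) le_rfl
      _ = _ := one_mul _
  · calc v (V.eval w) * v (Q.eval w) ≤ 1 * v (Q.eval w) :=
        mul_le_mul' (eval_le_one v hV hw) le_rfl
      _ = _ := one_mul _

lemma cross_le {A B : K[X]} (hA : IntP v A) (hB : IntP v B) {w w' : K} (hw : v w ≤ 1)
    (hw' : v w' ≤ 1) :
    v (A.eval w * B.eval w' - A.eval w' * B.eval w) ≤ v (w - w') := by
  have h1 : A.eval w * B.eval w' - A.eval w' * B.eval w =
      (A.eval w - A.eval w') * B.eval w' - A.eval w' * (B.eval w - B.eval w') := by ring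
  rw [h1]
  refine (v.map_sub _ _).trans (max_le ?_ ?_)
  · rw [map_mul]
    calc _ ≤ v (w - w') * 1 := mul_le_mul' (eval_sub_le v hA hw hw') (eval_le_one v hB hw')
      _ = _ := mul_one _
  · rw [map_mul]
    calc _ ≤ 1 * v (w - w') := mul_le_mul' (eval_le_one v hA hw') (eval_sub_le v hB hw hw')
      _ = _ := one_mul _

lemma rev_unit {R : K[X]} (hR : GP v R) {w : K} (hw : v w < 1) : v (R.reverse.eval w) = 1 := by
  have h1 : v (R.reverse.eval w - R.reverse.eval 0) < 1 := by
    refine lt_of_le_of_lt (eval_sub_le v (int_reverse hR.int) hw.le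
      (by rw [map_zero]; exact zero_le)) ?_
    rwa [sub_zero]
  have h2 : R.reverse.eval w = R.reverse.eval 0 + (R.reverse.eval w - R.reverse.eval 0) := by ring
  have h3 : v (R.reverse.eval 0) = 1 := by
    rw [← coeff_zero_eq_eval_zero, coeff_zero_reverse]; exact hR.lc
  rw [h2, Valuation.map_add_eq_of_lt_left, h3]
  rw [h3]; exact h1

/-! ### `v s = 1` -/

/-- good reduction: one step -/
lemma good_step (h : GR v P Q) (he : 2 ≤ e) (hs : v s = 1) {ζ₀ : K} (hζ : IsPrimitiveRoot ζ₀ e)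
    (p q : OnePoint K) : dl v 1 (fR P Q N e s p) (fR P Q N e s q) ≤
      ∏ ζ ∈ nthRootsFinset e (1 : K), dl v ζ p q := by
  classical
  have hs0 : s ≠ 0 := by rintro rfl; rw [map_zero] at hs; exact zero_ne_one hs
  have hroot : ∀ ζ ∈ nthRootsFinset e (1 : K), v ζ = 1 := fun ζ hζ' =>
    root_v v he ((mem_roots' he).mp hζ')
  -- both small
  have hsmall : ∀ p : OnePoint K, v (nu p) ≤ v (de p) → ∃ x : K, p = x ∧ v x ≤ 1 := by
    intro p hp
    induction p using OnePoint.rec with
    | infty => simp at hp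
    | coe x => exact ⟨x, rfl, by simpa using hp⟩
  rcases le_or_gt (v (nu p)) (v (de p)) with hp | hp <;>
    rcases le_or_gt (v (nu q)) (v (de q)) with hq | hq
  · obtain ⟨x, rfl, hx⟩ := hsmall p hp
    obtain ⟨y, rfl, hy⟩ := hsmall q hq
    have hW : ∀ {x : K}, v x ≤ 1 → v (s ^ N * x ^ e) ≤ 1 := by
      intro x hx
      rw [v_W, hs, one_pow, one_mul]
      exact pow_le_one' hx e
    have hne : ∀ {x : K}, v x ≤ 1 → P.eval (s ^ N * x ^ e) ≠ 0 ∨ Q.eval (s ^ N * x ^ e) ≠ 0 := by
      intro x hx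
      by_contra hcon
      push Not at hcon
      have := h.max_one (hW hx)
      rw [hcon.1, hcon.2, map_zero, max_self] at this
      exact zero_ne_one this
    rw [fR_coe, fR_coe, dl_pt (hne hx) (hne hy), h.max_one (hW hx), h.max_one (hW hy), mul_one,
      div_one]
    refine (cross_le h.hP.int h.hQ.int (hW hx) (hW hy)).trans (le_of_eq ?_)
    rw [← mul_sub, map_mul, map_pow, hs, one_pow, one_mul, prod_eq v hζ he]
    refine Finset.prod_congr rfl fun ζ _ => ?_
    simp only [dl, nrm, nu_coe, de_coe, map_one, max_eq_right hx, max_eq_right hy, mul_one, div_one]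
  · obtain ⟨x, rfl, hx⟩ := hsmall p hp
    have h1 : ∏ ζ ∈ nthRootsFinset e (1 : K), dl v ζ (x : OnePoint K) q = 1 := by
      apply Finset.prod_eq_one
      intro ζ hζ'
      have h2 : v (nu (x : OnePoint K) * de q - ζ * (nu q * de (x : OnePoint K))) = v (nu q) := by
        rw [Valuation.map_sub_eq_of_lt_right, map_mul, hroot ζ hζ', one_mul, de_coe, mul_one]
        rw [map_mul, map_mul, hroot ζ hζ', one_mul, de_coe, mul_one, nu_coe]
        calc v x * v (de q) ≤ 1 * v (de q) := mul_le_mul' hx le_rfl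
          _ = v (de q) := one_mul _
          _ < v (nu q) := hq
      rw [dl, h2, nrm, nrm, max_eq_left hq.le, nu_coe, de_coe, map_one, max_eq_right hx, one_mul,
        div_self (ne_of_gt (lt_of_le_of_lt zero_le hq))]
    rw [h1]
    exact dl_le (by rw [map_one]) _ _
  · obtain ⟨y, rfl, hy⟩ := hsmall q hq
    have h1 : ∏ ζ ∈ nthRootsFinset e (1 : K), dl v ζ p (y : OnePoint K) = 1 := by
      apply Finset.prod_eq_one
      intro ζ hζ'
      have h2 : v (nu p * de (y : OnePoint K) - ζ * (nu (y : OnePoint K) * de p)) = v (nu p) := by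
        rw [Valuation.map_sub_eq_of_lt_left, de_coe, mul_one]
        rw [map_mul, hroot ζ hζ', one_mul, map_mul, nu_coe, de_coe, mul_one]
        calc v y * v (de p) ≤ 1 * v (de p) := mul_le_mul' hy le_rfl
          _ = v (de p) := one_mul _
          _ < v (nu p) := hp
      rw [dl, h2, nrm, nrm, max_eq_left hp.le, nu_coe, de_coe, map_one, max_eq_right hy, mul_one,
        div_self (ne_of_gt (lt_of_le_of_lt zero_le hp))]
    rw [h1]
    exact dl_le (by rw [map_one]) _ _
  · -- both large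
    have hnu : ∀ {p : OnePoint K}, v (de p) < v (nu p) → nu p ≠ 0 := by
      intro p hp h0
      rw [h0, map_zero] at hp
      exact absurd hp (not_lt.mpr zero_le)
    have hξ : ∀ {p : OnePoint K}, v (de p) < v (nu p) → v (de p / nu p) < 1 := by
      intro p hp
      rw [map_div₀]
      exact (div_lt_one₀ (lt_of_le_of_lt zero_le hp)).mpr hp
    have hw : ∀ {p : OnePoint K}, v (de p) < v (nu p) →
        v ((s⁻¹) ^ N * (de p / nu p) ^ e) < 1 := by
      intro p hp
      rw [map_mul, map_pow, map_pow, map_inv₀, hs, inv_one, one_pow, one_mul]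
      exact pow_lt_one₀ zero_le (hξ hp) (by omega)
    have hne : ∀ {p : OnePoint K}, v (de p) < v (nu p) →
        P.reverse.eval ((s⁻¹) ^ N * (de p / nu p) ^ e) ≠ 0 ∨
        Q.reverse.eval ((s⁻¹) ^ N * (de p / nu p) ^ e) ≠ 0 := by
      intro p hp
      left
      intro h0
      have := rev_unit h.hP (hw hp)
      rw [h0, map_zero] at this
      exact zero_ne_one this
    rw [fR_rev hs0 (by omega) h.deg (hnu hp), fR_rev hs0 (by omega) h.deg (hnu hq),
      dl_pt (hne hp) (hne hq), rev_unit h.hP (hw hp), rev_unit h.hP (hw hq),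
      rev_unit h.hQ (hw hp), rev_unit h.hQ (hw hq), max_self, mul_one, div_one]
    refine (cross_le (int_reverse h.hP.int) (int_reverse h.hQ.int) (hw hp).le (hw hq).le).trans
      (le_of_eq ?_)
    rw [← mul_sub, map_mul, map_pow, map_inv₀, hs, inv_one, one_pow, one_mul,
      Valuation.map_sub_swap, prod_eq v hζ he]
    refine Finset.prod_congr rfl fun ζ _ => ?_
    rw [dl, nrm, nrm, max_eq_left hp.le, max_eq_left hq.le, ← map_mul, ← map_div₀]
    congr 1
    have h1 := hnu hp
    have h2 := hnu hq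
    field_simp

/-- good reduction: periodic points -/
theorem good_rat (h : GR v P Q) (he : 2 ≤ e) (hs : v s = 1) {ζ₀ : K} (hζ : IsPrimitiveRoot ζ₀ e)
    {p q : OnePoint K} (hp : Per (fR P Q N e s) p) (hq : Per (fR P Q N e s) q) (hne : p ≠ q)
    {ζ : K} (h1 : ζ ^ e = 1) (h2 : ζ ≠ 1) : dl v ζ p q = 1 := by
  classical
  have hroot : ∀ ζ ∈ nthRootsFinset e (1 : K), v ζ = 1 := fun ζ hζ' =>
    root_v v he ((mem_roots' he).mp hζ')
  have hpr : ∀ p q : OnePoint K, ∏ ζ ∈ nthRootsFinset e (1 : K), dl v ζ p q =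
      dl v 1 p q * ∏ ζ ∈ (nthRootsFinset e (1 : K)).erase 1, dl v ζ p q := fun p q =>
    (Finset.mul_prod_erase _ (fun ζ => dl v ζ p q) ((mem_roots' he).mpr (one_pow e))).symm
  have hQ : ∀ p q : OnePoint K, ∏ ζ ∈ (nthRootsFinset e (1 : K)).erase 1, dl v ζ p q ≤ 1 :=
    fun p q => Finset.prod_le_one' fun ζ hζ' => dl_le (hroot ζ (Finset.mem_of_mem_erase hζ')) _ _
  have h3 := per_step (F := fR P Q N e s) (δ := fun p q => dl v 1 p q) (C := fun _ => True)
    (fun _ _ => trivial) (fun p q _ _ => by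
      refine (good_step h he hs hζ p q).trans ?_
      rw [hpr]
      calc _ ≤ dl v 1 p q * 1 := mul_le_mul' le_rfl (hQ p q)
        _ = _ := mul_one _) trivial trivial hp hq
  have h4 := h3.trans (good_step h he hs hζ p q)
  rw [hpr] at h4
  have hδ : dl v 1 p q ≠ 0 := fun h0 => hne (dl_one_eq_zero h0)
  have h5 : ∏ ζ ∈ (nthRootsFinset e (1 : K)).erase 1, dl v ζ p q = 1 := by
    refine le_antisymm (hQ p q) ?_
    have h6 : dl v 1 p q * 1 ≤ dl v 1 p q * ∏ ζ ∈ (nthRootsFinset e (1 : K)).erase 1,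
        dl v ζ p q := by rw [mul_one]; exact h4
    exact (mul_le_mul_iff_right₀ (zero_lt_iff.mpr hδ)).mp h6
  exact all_eq_one _ _ (fun ζ' hζ' => dl_le (hroot ζ' (Finset.mem_of_mem_erase hζ')) _ _) h5 ζ
    (Finset.mem_erase.mpr ⟨h2, (mem_roots' he).mpr h1⟩)

end loc

end Pool.Agent.H422.MR
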