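import Mathlib
import Pool.Agent.H422.MR.Loc

/-!
# `z ↦ (P / Q) (s ^ N * z ^ e)` with `deg P = deg Q`: places where `s` is not a unit
-/

set_option autoImplicit false

open Polynomial OnePoint

namespace Pool.Agent.H422.MR

open Pool.Agent.H422.HE Pool.Agent.H422.UC Pool.Agent.H422.MF

section gen

variable {X : Type*} {F : X → X} {A : X → Prop}

lemma abs_iter (hA : ∀ p, A p → A (F p)) {p : X} (h : A p) (n : ℕ) : A (F^[n] p) := by
  induction n with
  | zero => exact h
  | succ n ih => rw [Function.iterate_succ_apply']; exact hA _ ih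

lemma abs_back (hA : ∀ p, A p → A (F p)) {p : X} (hp : Per F p) {n : ℕ} (h : A (F^[n] p)) :
    A p := by
  obtain ⟨k, hk, hkp⟩ := hp
  have h1 := abs_iter hA h (k * (n + 1) - n)
  have hle : n ≤ k * (n + 1) := by nlinarith
  rw [← Function.iterate_add_apply, Nat.sub_add_cancel hle, iter_mul hkp] at h1
  exact h1

/-- a periodic point is the image of a periodic point -/
lemma per_prev {p : X} (hp : Per F p) : ∃ q, Per F q ∧ F q = p ∧ ∃ n, q = F^[n] p := by
  obtain ⟨k, hk, hkp⟩ := hp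
  refine ⟨F^[k - 1] p, Per.iter ⟨k, hk, hkp⟩ _, ?_, k - 1, rfl⟩
  rw [← Function.iterate_succ_apply' F, Nat.succ_eq_add_one, Nat.sub_add_cancel hk, hkp]

end gen

section loc

variable {K : Type*} [Field K] {Γ : Type*} [LinearOrderedCommGroupWithZero Γ] {v : Valuation K Γ}
  {P Q : K[X]} {N e : ℕ} {s : K}

/-- points of an affine set which never meets the absorbing set -/
def CC (P Q : K[X]) (N e : ℕ) (s : K) (A : OnePoint K → Prop) (z : K) : Prop :=
  Pre (fR P Q N e s) (z : OnePoint K) ∧ ∀ n, ¬ A ((fR P Q N e s)^[n] (z : OnePoint K))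

lemma CC_pow {A : OnePoint K → Prop}
    (hF : ∀ z : K, CC P Q N e s A z →
      fR P Q N e s (z : OnePoint K) = ((gR P Q N e s z : K) : OnePoint K)) {z : K}
    (hz : CC P Q N e s A z) : CC P Q N e s A (gR P Q N e s z) := by
  have h1 := hF z hz
  refine ⟨?_, fun n => ?_⟩
  · rw [← h1]; exact hz.1.step
  · rw [← h1, ← Function.iterate_succ_apply]; exact hz.2 (n + 1)

lemma CC_iter {A : OnePoint K → Prop}
    (hF : ∀ z : K, CC P Q N e s A z →
      fR P Q N e s (z : OnePoint K) = ((gR P Q N e s z : K) : OnePoint K)) {z : K}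
    (hz : CC P Q N e s A z) (n : ℕ) : CC P Q N e s A ((gR P Q N e s)^[n] z) ∧
    (fR P Q N e s)^[n] (z : OnePoint K) = (((gR P Q N e s)^[n] z : K) : OnePoint K) := by
  induction n with
  | zero => exact ⟨hz, rfl⟩
  | succ n ih =>
    rw [Function.iterate_succ_apply', Function.iterate_succ_apply', ih.2, hF _ ih.1]
    exact ⟨CC_pow hF ih.1, rfl⟩

lemma fR_root {ζ z : K} (h : ζ ^ e = 1) : fR P Q N e s ((ζ * z : K) : OnePoint K) =
    fR P Q N e s (z : OnePoint K) := by
  rw [fR_coe, fR_coe, mul_pow, h, one_mul]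

lemma CC_root {A : OnePoint K → Prop} (hA : ∀ {ζ z : K}, ζ ^ e = 1 →
    (A ((ζ * z : K) : OnePoint K) ↔ A (z : OnePoint K))) {ζ z : K} (h : ζ ^ e = 1)
    (hz : CC P Q N e s A z) : CC P Q N e s A (ζ * z) := by
  refine ⟨?_, fun n => ?_⟩
  · apply Pre.of_step
    rw [fR_root h]; exact hz.1.step
  · match n with
    | 0 =>
      have := hz.2 0
      simp only [Function.iterate_zero, id] at this ⊢
      rwa [hA h]
    | n + 1 =>
      rw [Function.iterate_succ_apply, fR_root h, ← Function.iterate_succ_apply]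
      exact hz.2 (n + 1)

/-- The chain argument for the affine map. -/
lemma CC_chain {A : OnePoint K → Prop}
    (hF : ∀ z : K, CC P Q N e s A z →
      fR P Q N e s (z : OnePoint K) = ((gR P Q N e s z : K) : OnePoint K))
    (hA : ∀ {ζ z : K}, ζ ^ e = 1 → (A ((ζ * z : K) : OnePoint K) ↔ A (z : OnePoint K)))
    (hAabs : ∀ p, A p → A (fR P Q N e s p))
    {ρ E h : Γ} (hρ : ∀ x, CC P Q N e s A x → v x = ρ) (hρ0 : ρ ≠ 0) {M : ℕ} (hE : E = h ^ M)
    (h1 : 1 < E)
    (hstep : ∀ x y, CC P Q N e s A x → CC P Q N e s A y → v (x - y) < ρ →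
      v (gR P Q N e s x - gR P Q N e s y) = E * v (x - y)) {x y : K}
    (px : Per (fR P Q N e s) (x : OnePoint K)) (py : Per (fR P Q N e s) (y : OnePoint K))
    (hx : ¬ A (x : OnePoint K)) (hy : ¬ A (y : OnePoint K)) (hne : x ≠ y) {ζ : K}
    (hζ : ζ ^ e = 1) : ∃ g, v (x - ζ * y) = g ^ M * ρ := by
  have cx : CC P Q N e s A x := ⟨px.pre, fun n hn => hx (abs_back hAabs px hn)⟩
  have cy : CC P Q N e s A y := ⟨py.pre, fun n hn => hy (abs_back hAabs py hn)⟩
  have cζ := CC_root hA hζ cy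
  have hpre : ∀ {z : K}, CC P Q N e s A z → Pre (gR P Q N e s) z := by
    intro z hz
    obtain ⟨m, n, hmn, heq⟩ := hz.1
    rw [(CC_iter hF hz m).2, (CC_iter hF hz n).2] at heq
    exact ⟨m, n, hmn, OnePoint.coe_injective heq⟩
  refine chain v (f := gR P Q N e s) (C := CC P Q N e s A) (fun z hz => CC_pow hF hz) hρ hρ0 hE h1
    hstep cx cζ (hpre cx) (hpre cζ) ?_
  intro n hn
  have h2 : (fR P Q N e s)^[n] (x : OnePoint K) = (fR P Q N e s)^[n] ((ζ * y : K) : OnePoint K) := by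
    rw [(CC_iter hF cx n).2, (CC_iter hF cζ n).2, hn]
  have h3 : (fR P Q N e s)^[n + 1] (x : OnePoint K) = (fR P Q N e s)^[n + 1] (y : OnePoint K) := by
    rw [Function.iterate_succ_apply' _ n, h2, ← Function.iterate_succ_apply' (fR P Q N e s),
      Function.iterate_succ_apply, fR_root hζ, ← Function.iterate_succ_apply]
  exact hne (OnePoint.coe_injective (per_inj px py h3))

/-! ### `1 < v s` -/

section big

/-- the absorbing set for `1 < v s` -/
def AB (v : Valuation K Γ) (N e : ℕ) (s : K) : OnePoint K → Prop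
  | ∞ => True
  | (z : K) => 1 < v (s ^ N * z ^ e)

lemma AB_infty : AB v N e s ∞ := trivial
lemma AB_coe (z : K) : AB v N e s (z : OnePoint K) ↔ 1 < v (s ^ N * z ^ e) := Iff.rfl

variable (h : GR v P Q) (hN : 0 < N) (he : 2 ≤ e) (hs : 1 < v s)

include h he hs in
lemma AB_step {p : OnePoint K} (hp : AB v N e s p) :
    ∃ z : K, fR P Q N e s p = z ∧ v z = 1 := by
  have hs0 : s ≠ 0 := by rintro rfl; rw [map_zero] at hs; exact absurd hs (not_lt.mpr zero_le)
  induction p using OnePoint.rec with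
  | infty =>
    have hQ0 : Q.leadingCoeff ≠ 0 := by
      intro h0
      have := h.hQ.lc
      rw [h0, map_zero] at this
      exact zero_ne_one this
    refine ⟨P.leadingCoeff / Q.leadingCoeff, ?_, ?_⟩
    · rw [fR_infty hs0 (by omega) h.deg, pt_ne hQ0]
    · rw [map_div₀, h.hP.lc, h.hQ.lc, div_one]
  | coe z =>
    rw [AB_coe] at hp
    have h1 := h.hP.eval_big hp
    have h2 := h.hQ.eval_big hp
    have h3 : v (s ^ N * z ^ e) ^ Q.natDegree ≠ 0 :=
      pow_ne_zero _ (ne_of_gt (lt_trans zero_lt_one hp))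
    have hQ0 : Q.eval (s ^ N * z ^ e) ≠ 0 := by
      intro h0
      rw [h0, map_zero] at h2
      exact h3 h2.symm
    refine ⟨_, fR_coe_ne hQ0, ?_⟩
    rw [gR, map_div₀, h1, h2, h.deg, div_self h3]

include hN hs in
lemma AB_of_one {z : K} (hz : v z = 1) : AB v N e s (z : OnePoint K) := by
  rw [AB_coe, v_W, hz, one_pow, mul_one]
  exact one_lt_pow₀ hs (by omega)

include h hN he hs in
lemma AB_abs (p : OnePoint K) (hp : AB v N e s p) : AB v N e s (fR P Q N e s p) := by
  obtain ⟨z, hz, hz1⟩ := AB_step h he hs hp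
  rw [hz]
  exact AB_of_one hN hs hz1

include h hN hs in
lemma AB_not {z : K} (h1 : ¬ AB v N e s (z : OnePoint K))
    (h2 : ¬ AB v N e s (fR P Q N e s (z : OnePoint K))) :
    v (Q.eval (s ^ N * z ^ e)) = 1 ∧ v (P.eval (s ^ N * z ^ e)) < 1 ∧ v (s ^ N * z ^ e) = 1 := by
  rw [AB_coe, not_lt] at h1
  have hA : 1 < v s ^ N := one_lt_pow₀ hs (by omega)
  have hmax := h.max_one h1
  have hQ0 : Q.eval (s ^ N * z ^ e) ≠ 0 := by
    intro h0
    apply h2
    rw [fR_coe_eq h0]
    exact AB_infty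
  rw [fR_coe_ne hQ0, AB_coe, not_lt, v_W] at h2
  have hg : v (gR P Q N e s z) < 1 := by
    by_contra hcon
    rw [not_lt] at hcon
    have : 1 < v s ^ N * v (gR P Q N e s z) ^ e :=
      lt_of_lt_of_le hA (le_mul_of_one_le_right' (one_le_pow₀ hcon))
    exact absurd h2 (not_le.mpr this)
  have hQv : v (Q.eval (s ^ N * z ^ e)) ≠ 0 := (Valuation.ne_zero_iff _).mpr hQ0
  have hlt : v (P.eval (s ^ N * z ^ e)) < v (Q.eval (s ^ N * z ^ e)) := by
    rw [gR, map_div₀, div_lt_one₀ (zero_lt_iff.mpr hQv)] at hg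
    exact hg
  have hQ1 : v (Q.eval (s ^ N * z ^ e)) = 1 := by rwa [max_eq_right hlt.le] at hmax
  refine ⟨hQ1, by rwa [hQ1] at hlt, ?_⟩
  refine le_antisymm h1 ?_
  by_contra hcon
  rw [not_le] at hcon
  have := h.hP.eval_small hcon
  rw [this, hQ1] at hlt
  exact lt_irrefl _ hlt

lemma AB_root {ζ z : K} (he0 : 2 ≤ e) (hζ : ζ ^ e = 1) :
    AB v N e s ((ζ * z : K) : OnePoint K) ↔ AB v N e s (z : OnePoint K) := by
  rw [AB_coe, AB_coe, mul_pow, hζ, one_mul]

include h hN he hs in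
theorem big_rat {ζ₀ : K} (hζ : IsPrimitiveRoot ζ₀ e)
    (htame : ∀ ζ : K, ζ ^ e = 1 → ζ ≠ 1 → v (1 - ζ) = 1) {x y : K}
    (px : Per (fR P Q N e s) (x : OnePoint K)) (py : Per (fR P Q N e s) (y : OnePoint K))
    (hne : x ≠ y) {ζ ζ' : K} (hζ1 : ζ ^ e = 1) (hζ2 : ζ ≠ 1) (hζ1' : ζ' ^ e = 1) (hζ2' : ζ' ≠ 1) :
    ∃ g, v (x - ζ * y) = g ^ (N / Nat.gcd e N) * v (x - ζ' * y) := by
  have hs0 : v s ≠ 0 := ne_of_gt (lt_trans zero_lt_one hs)
  have hsN : v s ^ N ≠ 0 := pow_ne_zero _ hs0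
  have hA1 : 1 < v s ^ N := one_lt_pow₀ hs (by omega)
  have habs := AB_abs h hN he hs
  have hroot : ∀ {ζ : K}, ζ ^ e = 1 → v ζ = 1 := fun h' => root_v v he h'
  -- absorbed periodic points
  have hone : ∀ {p : OnePoint K}, Per (fR P Q N e s) p → AB v N e s p →
      ∃ z : K, p = z ∧ v z = 1 := by
    intro p pp hp
    obtain ⟨q, hq, hqp, n, hn⟩ := per_prev pp
    have hq1 : AB v N e s q := by rw [hn]; exact abs_iter habs hp n
    obtain ⟨z, hz, hz1⟩ := AB_step h he hs hq1
    exact ⟨z, by rw [← hqp, hz], hz1⟩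
  -- non-absorbed points
  have hCC : ∀ z : K, CC P Q N e s (AB v N e s) z → v (Q.eval (s ^ N * z ^ e)) = 1 ∧
      v (P.eval (s ^ N * z ^ e)) < 1 ∧ v (s ^ N * z ^ e) = 1 := fun z hz =>
    AB_not h hN hs (hz.2 0) (hz.2 1)
  have hF : ∀ z : K, CC P Q N e s (AB v N e s) z →
      fR P Q N e s (z : OnePoint K) = ((gR P Q N e s z : K) : OnePoint K) := by
    intro z hz
    apply fR_coe_ne
    intro h0
    have := (hCC z hz).1
    rw [h0, map_zero] at this
    exact zero_ne_one this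
  have hW : ∀ {x : K}, CC P Q N e s (AB v N e s) x → v s ^ N * v x ^ e = 1 := by
    intro x cx
    rw [← v_W]; exact (hCC x cx).2.2
  have hv1 : ∀ {x : K}, CC P Q N e s (AB v N e s) x → v x < 1 := by
    intro x cx
    by_contra hcon
    rw [not_lt] at hcon
    have h1 : 1 < v s ^ N * v x ^ e :=
      lt_of_lt_of_le hA1 (le_mul_of_one_le_right' (one_le_pow₀ hcon))
    rw [hW cx] at h1
    exact lt_irrefl _ h1
  have hcc : ∀ {x : K}, Per (fR P Q N e s) (x : OnePoint K) → ¬ AB v N e s (x : OnePoint K) →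
      CC P Q N e s (AB v N e s) x := fun {x} px hx =>
    ⟨px.pre, fun n hn => hx (abs_back habs px hn)⟩
  by_cases hx : AB v N e s (x : OnePoint K) <;> by_cases hy : AB v N e s (y : OnePoint K)
  · -- contraction
    exfalso
    have hst : ∀ p q : OnePoint K, (Per (fR P Q N e s) p ∧ AB v N e s p) →
        (Per (fR P Q N e s) q ∧ AB v N e s q) →
        v (nu (fR P Q N e s p) - nu (fR P Q N e s q)) ≤ (v s ^ N)⁻¹ * v (nu p - nu q) := by
      rintro p q ⟨pp, hp⟩ ⟨pq, hq⟩
      obtain ⟨x, rfl, hx1⟩ := hone pp hp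
      obtain ⟨y, rfl, hy1⟩ := hone pq hq
      have hWx : v (s ^ N * x ^ e) = v s ^ N := by rw [v_W, hx1, one_pow, mul_one]
      have hWy : v (s ^ N * y ^ e) = v s ^ N := by rw [v_W, hy1, one_pow, mul_one]
      have hwx0 : s ^ N * x ^ e ≠ 0 := (Valuation.ne_zero_iff v).mp (by rw [hWx]; exact hsN)
      have hwy0 : s ^ N * y ^ e ≠ 0 := (Valuation.ne_zero_iff v).mp (by rw [hWy]; exact hsN)
      have hQx : Q.eval (s ^ N * x ^ e) ≠ 0 := (Valuation.ne_zero_iff v).mp (by
        rw [h.hQ.eval_big (by rw [hWx]; exact hA1), hWx]; exact pow_ne_zero _ hsN)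
      have hQy : Q.eval (s ^ N * y ^ e) ≠ 0 := (Valuation.ne_zero_iff v).mp (by
        rw [h.hQ.eval_big (by rw [hWy]; exact hA1), hWy]; exact pow_ne_zero _ hsN)
      rw [fR_coe_ne hQx, fR_coe_ne hQy]
      simp only [nu_coe]
      set w := s ^ N * x ^ e with hw
      set w' := s ^ N * y ^ e with hw'
      have hwi : v w⁻¹ < 1 := by rw [map_inv₀, hWx]; exact inv_lt_one_of_one_lt₀ hA1
      have hwi' : v w'⁻¹ < 1 := by rw [map_inv₀, hWy]; exact inv_lt_one_of_one_lt₀ hA1
      have e1 : gR P Q N e s x - gR P Q N e s y =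
          (P.reverse.eval w⁻¹ * Q.reverse.eval w'⁻¹ - P.reverse.eval w'⁻¹ * Q.reverse.eval w⁻¹) /
          (Q.reverse.eval w⁻¹ * Q.reverse.eval w'⁻¹) := by
        have hQr : Q.reverse.eval w⁻¹ ≠ 0 := (Valuation.ne_zero_iff v).mp (by
          rw [rev_unit h.hQ hwi]; exact one_ne_zero)
        have hQr' : Q.reverse.eval w'⁻¹ ≠ 0 := (Valuation.ne_zero_iff v).mp (by
          rw [rev_unit h.hQ hwi']; exact one_ne_zero)
        have g1 : gR P Q N e s x = P.reverse.eval w⁻¹ / Q.reverse.eval w⁻¹ := by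
          rw [gR, ← hw, eval_reverse (R := P) hwx0, eval_reverse (R := Q) hwx0, h.deg,
            mul_div_mul_left _ _ (pow_ne_zero _ hwx0)]
        have g2 : gR P Q N e s y = P.reverse.eval w'⁻¹ / Q.reverse.eval w'⁻¹ := by
          rw [gR, ← hw', eval_reverse (R := P) hwy0, eval_reverse (R := Q) hwy0, h.deg,
            mul_div_mul_left _ _ (pow_ne_zero _ hwy0)]
        rw [g1, g2, div_sub_div _ _ hQr hQr']
        congr 1
        ring
      have e2 : v (w⁻¹ - w'⁻¹) = (v s ^ N)⁻¹ * v (x ^ e - y ^ e) := by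
        have e3 : w⁻¹ - w'⁻¹ = (w' - w) / (w * w') := by field_simp
        have e4 : w' - w = s ^ N * (y ^ e - x ^ e) := by rw [hw, hw']; ring
        rw [e3, e4, map_div₀, map_mul, map_mul, map_pow, hWx, hWy, Valuation.map_sub_swap,
          mul_div_mul_left _ _ hsN, div_eq_mul_inv, mul_comm]
      rw [e1, map_div₀, map_mul v (Q.reverse.eval w⁻¹), rev_unit h.hQ hwi, rev_unit h.hQ hwi',
        mul_one, div_one]
      refine (cross_le (int_reverse h.hP.int) (int_reverse h.hQ.int) hwi.le hwi'.le).trans ?_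
      rw [e2]
      exact mul_le_mul' le_rfl (pow_sub_pow_le v hx1.le hy1.le e)
    have hinv : (v s ^ N)⁻¹ < 1 := inv_lt_one_of_one_lt₀ hA1
    have h3 := per_step (F := fR P Q N e s) (δ := fun p q => v (nu p - nu q))
      (C := fun p => Per (fR P Q N e s) p ∧ AB v N e s p) (fun p hp => ⟨hp.1.step, habs p hp.2⟩)
      (fun p q hp hq => (hst p q hp hq).trans (by
        calc (v s ^ N)⁻¹ * v (nu p - nu q) ≤ 1 * v (nu p - nu q) := mul_le_mul' hinv.le le_rfl
          _ = _ := one_mul _)) (p := (x : OnePoint K)) (q := (y : OnePoint K)) ⟨px, hx⟩ ⟨py, hy⟩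
      px py
    have h4 := h3.trans (hst _ _ ⟨px, hx⟩ ⟨py, hy⟩)
    simp only [nu_coe] at h4
    have hxy : 0 < v (x - y) :=
      zero_lt_iff.mpr ((Valuation.ne_zero_iff _).mpr (sub_ne_zero.mpr hne))
    have h5 : (v s ^ N)⁻¹ * v (x - y) < 1 * v (x - y) := (mul_lt_mul_iff_left₀ hxy).mpr hinv
    rw [one_mul] at h5
    exact absurd h4 (not_le.mpr h5)
  · -- `x` absorbed
    have hx1 : v x = 1 := by
      obtain ⟨z, hz, hz1⟩ := hone px hx
      rwa [OnePoint.coe_injective hz]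
    have hy1 := hv1 (hcc py hy)
    have key : ∀ {ζ : K}, ζ ^ e = 1 → v (x - ζ * y) = 1 := by
      intro ζ hζ
      rw [Valuation.map_sub_eq_of_lt_left, hx1]
      rw [map_mul, hroot hζ, one_mul, hx1]; exact hy1
    exact ⟨1, by rw [key hζ1, key hζ1', one_pow, one_mul]⟩
  · have hy1 : v y = 1 := by
      obtain ⟨z, hz, hz1⟩ := hone py hy
      rwa [OnePoint.coe_injective hz]
    have hx1 := hv1 (hcc px hx)
    have key : ∀ {ζ : K}, ζ ^ e = 1 → v (x - ζ * y) = 1 := by
      intro ζ hζ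
      rw [Valuation.map_sub_eq_of_lt_right, map_mul, hroot hζ, one_mul, hy1]
      rw [map_mul, hroot hζ, one_mul, hy1]; exact hx1
    exact ⟨1, by rw [key hζ1, key hζ1', one_pow, one_mul]⟩
  · -- expansion
    have cy := hcc py hy
    set ρ := v y with hρ
    have hρe : v s ^ N * ρ ^ e = 1 := hW cy
    have hρ0 : ρ ≠ 0 := by
      intro h0
      rw [h0, zero_pow (by omega), mul_zero] at hρe
      exact zero_ne_one hρe
    have hρ1 : ρ < 1 := hv1 cy
    have hveq : ∀ z : K, CC P Q N e s (AB v N e s) z → v z = ρ := by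
      intro z cz
      have h1 := (hW cz).trans (hW cy).symm
      exact (pow_left_inj₀ zero_le zero_le (by omega)).mp (mul_left_cancel₀ hsN h1)
    have hE : (ρ⁻¹) ^ e = v s ^ N := by
      rw [inv_pow]
      exact inv_eq_of_mul_eq_one_left hρe
    obtain ⟨g0, hg0⟩ := pow_cl_nat (inv_ne_zero hρ0) (by omega) hE
    have hE1 : 1 < ρ⁻¹ := (one_lt_inv₀ (zero_lt_iff.mpr hρ0)).mpr hρ1
    have hstep : ∀ x y : K, CC P Q N e s (AB v N e s) x → CC P Q N e s (AB v N e s) y →
        v (x - y) < ρ → v (gR P Q N e s x - gR P Q N e s y) = ρ⁻¹ * v (x - y) := by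
      intro x y cx cy hxy
      obtain ⟨q1, q2, q3⟩ := hCC x cx
      obtain ⟨r1, r2, r3⟩ := hCC y cy
      rcases eq_or_ne x y with rfl | hxy0
      · rw [sub_self, sub_self, map_zero, mul_zero]
      have hyρ := hveq y cy
      have h1 : v (x ^ e - y ^ e) = v y ^ (e - 1) * v (x - y) :=
        bad_step v hζ he htame (by rw [hyρ]; exact hxy)
      have h2 : v (s ^ N * x ^ e - s ^ N * y ^ e) = ρ⁻¹ * v (x - y) := by
        rw [← mul_sub, map_mul, map_pow, h1, hyρ]
        have h3 : ρ ^ e = ρ ^ (e - 1) * ρ := by rw [← pow_succ]; congr 1; omega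
        rw [h3] at hρe
        rw [← mul_assoc]
        congr 1
        rw [← mul_assoc] at hρe
        exact eq_inv_of_mul_eq_one_left hρe
      have h4 : v (s ^ N * x ^ e - s ^ N * y ^ e) < 1 := by
        rw [h2, inv_mul_lt_iff₀ (zero_lt_iff.mpr hρ0), mul_one]
        exact hxy
      have hQx : Q.eval (s ^ N * x ^ e) ≠ 0 :=
        (Valuation.ne_zero_iff v).mp (by rw [q1]; exact one_ne_zero)
      have hQy : Q.eval (s ^ N * y ^ e) ≠ 0 :=
        (Valuation.ne_zero_iff v).mp (by rw [r1]; exact one_ne_zero)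
      set w := s ^ N * x ^ e with hw
      set w' := s ^ N * y ^ e with hw'
      have hww : v (w - w') ≠ 0 := by
        rw [h2]
        exact mul_ne_zero (inv_ne_zero hρ0)
          ((Valuation.ne_zero_iff _).mpr (sub_ne_zero.mpr hxy0))
      have h5 := h.hP.diff_eq q3.le r3.le h4 r2
      have e1 : gR P Q N e s x - gR P Q N e s y =
          ((P.eval w - P.eval w') * Q.eval w' - P.eval w' * (Q.eval w - Q.eval w')) /
          (Q.eval w * Q.eval w') := by
        rw [gR, gR, ← hw, ← hw', div_sub_div _ _ hQx hQy]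
        congr 1
        ring
      have h6 : v ((P.eval w - P.eval w') * Q.eval w') = v (w - w') := by
        rw [map_mul, r1, mul_one, h5]
      have h7 : v (P.eval w' * (Q.eval w - Q.eval w')) < v (w - w') := by
        rw [map_mul]
        calc v (P.eval w') * v (Q.eval w - Q.eval w') ≤ v (P.eval w') * v (w - w') :=
              mul_le_mul' le_rfl (eval_sub_le v h.hQ.int q3.le r3.le)
          _ < 1 * v (w - w') := (mul_lt_mul_iff_left₀ (zero_lt_iff.mpr hww)).mpr r2
          _ = _ := one_mul _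
      rw [e1, map_div₀, map_mul v (Q.eval w), q1, r1, mul_one, div_one,
        Valuation.map_sub_eq_of_lt_left, h6, h2]
      rw [h6]; exact h7
    have key : ∀ {ζ : K}, ζ ^ e = 1 → ∃ g, v (x - ζ * y) = g ^ (N / Nat.gcd e N) * ρ :=
      fun hζ' => CC_chain hF (fun h' => AB_root he h') habs hveq hρ0 hg0 hE1 hstep px py hx hy
        hne hζ'
    obtain ⟨g, hg⟩ := key hζ1
    obtain ⟨g', hg'⟩ := key hζ1'
    have hpos : 0 < N / Nat.gcd e N :=
      Nat.div_pos (Nat.gcd_le_right _ hN) (Nat.gcd_pos_of_pos_right _ hN)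
    have hg0' : g' ≠ 0 := by
      rintro rfl
      rw [zero_pow hpos.ne', zero_mul, Valuation.zero_iff, sub_eq_zero] at hg'
      apply hne
      apply OnePoint.coe_injective
      apply per_inj (k := 1) px py
      rw [Function.iterate_one, hg', fR_root hζ1']
    refine ⟨g / g', ?_⟩
    rw [hg, hg', div_pow, ← mul_assoc, div_mul_cancel₀ _ (pow_ne_zero _ hg0')]

end big

end loc

end Pool.Agent.H422.MR
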