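import Mathlib
import Pool.Agent.H422.MR.LocB

/-!
# `z ↦ (P / Q) (s ^ N * z ^ e)` with `deg P = deg Q`: places where `s` is small
-/

set_option autoImplicit false

open Polynomial OnePoint

namespace Pool.Agent.H422.MR

open Pool.Agent.H422.HE Pool.Agent.H422.UC Pool.Agent.H422.MF

section loc

variable {K : Type*} [Field K] {Γ : Type*} [LinearOrderedCommGroupWithZero Γ] {v : Valuation K Γ}
  {P Q : K[X]} {N e : ℕ} {s : K}

/-- the absorbing set for `v s < 1` -/
def AS (v : Valuation K Γ) (N e : ℕ) (s : K) : OnePoint K → Prop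
  | ∞ => False
  | (z : K) => v (s ^ N * z ^ e) < 1

lemma AS_infty : ¬ AS v N e s ∞ := fun h => h
lemma AS_coe (z : K) : AS v N e s (z : OnePoint K) ↔ v (s ^ N * z ^ e) < 1 := Iff.rfl

variable (h : GR v P Q) (hN : 0 < N) (he : 2 ≤ e) (hs : v s < 1)

include h in
lemma AS_step {p : OnePoint K} (hp : AS v N e s p) :
    ∃ z : K, fR P Q N e s p = z ∧ v z = 1 := by
  induction p using OnePoint.rec with
  | infty => exact absurd hp AS_infty
  | coe z =>
    rw [AS_coe] at hp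
    have h1 := h.hP.eval_small hp
    have h2 := h.hQ.eval_small hp
    have hQ0 : Q.eval (s ^ N * z ^ e) ≠ 0 :=
      (Valuation.ne_zero_iff v).mp (by rw [h2]; exact one_ne_zero)
    exact ⟨_, fR_coe_ne hQ0, by rw [gR, map_div₀, h1, h2, div_one]⟩

include hN hs in
lemma AS_of_one {z : K} (hz : v z = 1) : AS v N e s (z : OnePoint K) := by
  rw [AS_coe, v_W, hz, one_pow, mul_one]
  exact pow_lt_one₀ zero_le hs (by omega)

include h hN hs in
lemma AS_abs (p : OnePoint K) (hp : AS v N e s p) : AS v N e s (fR P Q N e s p) := by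
  obtain ⟨z, hz, hz1⟩ := AS_step h hp
  rw [hz]
  exact AS_of_one hN hs hz1

include h hN he hs in
lemma AS_not (hs0 : s ≠ 0) {z : K} (h1 : ¬ AS v N e s (z : OnePoint K))
    (h2 : ¬ AS v N e s (fR P Q N e s (z : OnePoint K)))
    (h3 : ¬ AS v N e s (fR P Q N e s (fR P Q N e s (z : OnePoint K)))) :
    Q.eval (s ^ N * z ^ e) ≠ 0 ∧ v (P.eval (s ^ N * z ^ e)) = 1 ∧
      v (Q.eval (s ^ N * z ^ e)) < 1 ∧ v (s ^ N * z ^ e) = 1 := by
  rw [AS_coe, not_lt] at h1
  have hQ0 : Q.eval (s ^ N * z ^ e) ≠ 0 := by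
    intro h0
    apply h3
    rw [fR_coe_eq h0, fR_infty hs0 (by omega) h.deg]
    have hQ0 : Q.leadingCoeff ≠ 0 := (Valuation.ne_zero_iff v).mp (by rw [h.hQ.lc]; exact one_ne_zero)
    rw [pt_ne hQ0]
    exact AS_of_one hN hs (by rw [map_div₀, h.hP.lc, h.hQ.lc, div_one])
  rw [fR_coe_ne hQ0] at h2
  have hA : v s ^ N < 1 := pow_lt_one₀ zero_le hs (by omega)
  have hg : 1 < v (gR P Q N e s z) := by
    by_contra hcon
    rw [not_lt] at hcon
    apply h2
    rw [AS_coe, v_W]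
    calc v s ^ N * v (gR P Q N e s z) ^ e ≤ v s ^ N * 1 := mul_le_mul' le_rfl (pow_le_one' hcon e)
      _ = v s ^ N := mul_one _
      _ < 1 := hA
  have hW : v (s ^ N * z ^ e) = 1 := by
    refine le_antisymm ?_ h1
    by_contra hcon
    rw [not_le] at hcon
    have h4 : v (gR P Q N e s z) = 1 := by
      rw [gR, map_div₀, h.hP.eval_big hcon, h.hQ.eval_big hcon, h.deg, div_self]
      exact pow_ne_zero _ (ne_of_gt (lt_trans zero_lt_one hcon))
    rw [h4] at hg
    exact lt_irrefl _ hg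
  have hmax := h.max_one hW.le
  have hQv : v (Q.eval (s ^ N * z ^ e)) ≠ 0 := (Valuation.ne_zero_iff _).mpr hQ0
  have hlt : v (Q.eval (s ^ N * z ^ e)) < v (P.eval (s ^ N * z ^ e)) := by
    rw [gR, map_div₀, one_lt_div₀ (zero_lt_iff.mpr hQv)] at hg
    exact hg
  rw [max_eq_left hlt.le] at hmax
  exact ⟨hQ0, hmax, by rwa [hmax] at hlt, hW⟩

lemma AS_root {ζ z : K} (hζ : ζ ^ e = 1) :
    AS v N e s ((ζ * z : K) : OnePoint K) ↔ AS v N e s (z : OnePoint K) := by
  rw [AS_coe, AS_coe, mul_pow, hζ, one_mul]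

include h hN he hs in
theorem small_rat (hs0 : s ≠ 0) {ζ₀ : K} (hζ : IsPrimitiveRoot ζ₀ e)
    (htame : ∀ ζ : K, ζ ^ e = 1 → ζ ≠ 1 → v (1 - ζ) = 1) {x y : K}
    (px : Per (fR P Q N e s) (x : OnePoint K)) (py : Per (fR P Q N e s) (y : OnePoint K))
    (hne : x ≠ y) {ζ ζ' : K} (hζ1 : ζ ^ e = 1) (hζ1' : ζ' ^ e = 1) :
    ∃ g, v (x - ζ * y) = g ^ (N / Nat.gcd e N) * v (x - ζ' * y) := by
  have hs0' : v s ≠ 0 := (Valuation.ne_zero_iff _).mpr hs0
  have hsN : v s ^ N ≠ 0 := pow_ne_zero _ hs0'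
  have hA1 : v s ^ N < 1 := pow_lt_one₀ zero_le hs (by omega)
  have habs := AS_abs (e := e) h hN hs
  have hroot : ∀ {ζ : K}, ζ ^ e = 1 → v ζ = 1 := fun h' => root_v v he h'
  -- absorbed periodic points
  have hone : ∀ {p : OnePoint K}, Per (fR P Q N e s) p → AS v N e s p →
      ∃ z : K, p = z ∧ v z = 1 := by
    intro p pp hp
    obtain ⟨q, hq, hqp, n, hn⟩ := per_prev pp
    have hq1 : AS v N e s q := by rw [hn]; exact abs_iter habs hp n
    obtain ⟨z, hz, hz1⟩ := AS_step h hq1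
    exact ⟨z, by rw [← hqp, hz], hz1⟩
  -- non-absorbed points
  have hCC : ∀ z : K, CC P Q N e s (AS v N e s) z → Q.eval (s ^ N * z ^ e) ≠ 0 ∧
      v (P.eval (s ^ N * z ^ e)) = 1 ∧ v (Q.eval (s ^ N * z ^ e)) < 1 ∧
      v (s ^ N * z ^ e) = 1 := fun z hz =>
    AS_not h hN he hs hs0 (hz.2 0) (hz.2 1) (hz.2 2)
  have hF : ∀ z : K, CC P Q N e s (AS v N e s) z →
      fR P Q N e s (z : OnePoint K) = ((gR P Q N e s z : K) : OnePoint K) :=
    fun z hz => fR_coe_ne (hCC z hz).1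
  have hW : ∀ {x : K}, CC P Q N e s (AS v N e s) x → v s ^ N * v x ^ e = 1 := by
    intro x cx
    rw [← v_W]; exact (hCC x cx).2.2.2
  have hv1 : ∀ {x : K}, CC P Q N e s (AS v N e s) x → 1 < v x := by
    intro x cx
    by_contra hcon
    rw [not_lt] at hcon
    have h1 : v s ^ N * v x ^ e < 1 := by
      calc v s ^ N * v x ^ e ≤ v s ^ N * 1 := mul_le_mul' le_rfl (pow_le_one' hcon e)
        _ = v s ^ N := mul_one _
        _ < 1 := hA1
    rw [hW cx] at h1
    exact lt_irrefl _ h1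
  have hcc : ∀ {x : K}, Per (fR P Q N e s) (x : OnePoint K) → ¬ AS v N e s (x : OnePoint K) →
      CC P Q N e s (AS v N e s) x := fun {x} px hx =>
    ⟨px.pre, fun n hn => hx (abs_back habs px hn)⟩
  by_cases hx : AS v N e s (x : OnePoint K) <;> by_cases hy : AS v N e s (y : OnePoint K)
  · -- contraction
    exfalso
    have hst : ∀ p q : OnePoint K, (Per (fR P Q N e s) p ∧ AS v N e s p) →
        (Per (fR P Q N e s) q ∧ AS v N e s q) →
        v (nu (fR P Q N e s p) - nu (fR P Q N e s q)) ≤ v s ^ N * v (nu p - nu q) := by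
      rintro p q ⟨pp, hp⟩ ⟨pq, hq⟩
      obtain ⟨x, rfl, hx1⟩ := hone pp hp
      obtain ⟨y, rfl, hy1⟩ := hone pq hq
      rw [AS_coe] at hp hq
      have q1 := h.hQ.eval_small hp
      have r1 := h.hQ.eval_small hq
      have hQx : Q.eval (s ^ N * x ^ e) ≠ 0 :=
        (Valuation.ne_zero_iff v).mp (by rw [q1]; exact one_ne_zero)
      have hQy : Q.eval (s ^ N * y ^ e) ≠ 0 :=
        (Valuation.ne_zero_iff v).mp (by rw [r1]; exact one_ne_zero)
      rw [fR_coe_ne hQx, fR_coe_ne hQy]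
      simp only [nu_coe]
      have e1 : gR P Q N e s x - gR P Q N e s y =
          (P.eval (s ^ N * x ^ e) * Q.eval (s ^ N * y ^ e) -
            P.eval (s ^ N * y ^ e) * Q.eval (s ^ N * x ^ e)) /
          (Q.eval (s ^ N * x ^ e) * Q.eval (s ^ N * y ^ e)) := by
        rw [gR, gR, div_sub_div _ _ hQx hQy]
        congr 1
        ring
      rw [e1, map_div₀, map_mul v (Q.eval (s ^ N * x ^ e)), q1, r1, mul_one, div_one]
      refine (cross_le h.hP.int h.hQ.int hp.le hq.le).trans ?_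
      rw [← mul_sub, map_mul, map_pow]
      exact mul_le_mul' le_rfl (pow_sub_pow_le v hx1.le hy1.le e)
    have h3 := per_step (F := fR P Q N e s) (δ := fun p q => v (nu p - nu q))
      (C := fun p => Per (fR P Q N e s) p ∧ AS v N e s p) (fun p hp => ⟨hp.1.step, habs p hp.2⟩)
      (fun p q hp hq => (hst p q hp hq).trans (by
        calc v s ^ N * v (nu p - nu q) ≤ 1 * v (nu p - nu q) := mul_le_mul' hA1.le le_rfl
          _ = _ := one_mul _)) (p := (x : OnePoint K)) (q := (y : OnePoint K)) ⟨px, hx⟩ ⟨py, hy⟩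
      px py
    have h4 := h3.trans (hst _ _ ⟨px, hx⟩ ⟨py, hy⟩)
    simp only [nu_coe] at h4
    have hxy : 0 < v (x - y) :=
      zero_lt_iff.mpr ((Valuation.ne_zero_iff _).mpr (sub_ne_zero.mpr hne))
    have h5 : v s ^ N * v (x - y) < 1 * v (x - y) := (mul_lt_mul_iff_left₀ hxy).mpr hA1
    rw [one_mul] at h5
    exact absurd h4 (not_le.mpr h5)
  · -- `x` absorbed
    have hx1 : v x = 1 := by
      obtain ⟨z, hz, hz1⟩ := hone px hx
      rwa [OnePoint.coe_injective hz]
    have hy1 := hv1 (hcc py hy)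
    have key : ∀ {ζ : K}, ζ ^ e = 1 → v (x - ζ * y) = v y := by
      intro ζ hζ
      rw [Valuation.map_sub_eq_of_lt_right, map_mul, hroot hζ, one_mul]
      rw [map_mul, hroot hζ, one_mul, hx1]; exact hy1
    exact ⟨1, by rw [key hζ1, key hζ1', one_pow, one_mul]⟩
  · have hy1 : v y = 1 := by
      obtain ⟨z, hz, hz1⟩ := hone py hy
      rwa [OnePoint.coe_injective hz]
    have hx1 := hv1 (hcc px hx)
    have key : ∀ {ζ : K}, ζ ^ e = 1 → v (x - ζ * y) = v x := by
      intro ζ hζ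
      rw [Valuation.map_sub_eq_of_lt_left]
      rw [map_mul, hroot hζ, one_mul, hy1]; exact hx1
    exact ⟨1, by rw [key hζ1, key hζ1', one_pow, one_mul]⟩
  · -- expansion
    have cy := hcc py hy
    set ρ := v y with hρ
    have hρe : v s ^ N * ρ ^ e = 1 := hW cy
    have hρ1 : 1 < ρ := hv1 cy
    have hρ0 : ρ ≠ 0 := ne_of_gt (lt_trans zero_lt_one hρ1)
    have hveq : ∀ z : K, CC P Q N e s (AS v N e s) z → v z = ρ := by
      intro z cz
      have h1 := (hW cz).trans (hW cy).symm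
      exact (pow_left_inj₀ zero_le zero_le (by omega)).mp (mul_left_cancel₀ hsN h1)
    have hE : ρ ^ e = ((v s)⁻¹) ^ N := by
      rw [inv_pow]
      exact (inv_eq_of_mul_eq_one_right hρe).symm
    obtain ⟨g0, hg0⟩ := pow_cl_nat hρ0 (by omega) hE
    have hQv : ∀ z : K, CC P Q N e s (AS v N e s) z → v (Q.eval (s ^ N * z ^ e)) = ρ⁻¹ := by
      intro z cz
      have h1 := hveq _ (CC_pow hF cz)
      rw [gR, map_div₀, (hCC z cz).2.1, one_div] at h1
      rw [← h1, inv_inv]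
    have hstep : ∀ x y : K, CC P Q N e s (AS v N e s) x → CC P Q N e s (AS v N e s) y →
        v (x - y) < ρ → v (gR P Q N e s x - gR P Q N e s y) = ρ * v (x - y) := by
      intro x y cx cy hxy
      obtain ⟨hQx, q1, q2, q3⟩ := hCC x cx
      obtain ⟨hQy, r1, r2, r3⟩ := hCC y cy
      have q4 := hQv x cx
      have r4 := hQv y cy
      rcases eq_or_ne x y with rfl | hxy0
      · rw [sub_self, sub_self, map_zero, mul_zero]
      have hyρ := hveq y cy
      have h1 : v (x ^ e - y ^ e) = v y ^ (e - 1) * v (x - y) :=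
        bad_step v hζ he htame (by rw [hyρ]; exact hxy)
      have h2 : v (s ^ N * x ^ e - s ^ N * y ^ e) = ρ⁻¹ * v (x - y) := by
        rw [← mul_sub, map_mul, map_pow, h1, hyρ]
        have h3 : ρ ^ e = ρ ^ (e - 1) * ρ := by rw [← pow_succ]; congr 1; omega
        rw [h3] at hρe
        rw [← mul_assoc]
        congr 1
        rw [← mul_assoc] at hρe
        exact eq_inv_of_mul_eq_one_left hρe
      have h4 : v (s ^ N * x ^ e - s ^ N * y ^ e) < 1 := by
        rw [h2, inv_mul_lt_iff₀ (zero_lt_iff.mpr hρ0), mul_one]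
        exact hxy
      set w := s ^ N * x ^ e with hw
      set w' := s ^ N * y ^ e with hw'
      have hww : v (w - w') ≠ 0 := by
        rw [h2]
        exact mul_ne_zero (inv_ne_zero hρ0)
          ((Valuation.ne_zero_iff _).mpr (sub_ne_zero.mpr hxy0))
      have h5 := h.hQ.diff_eq q3.le r3.le h4 r2
      have e1 : gR P Q N e s x - gR P Q N e s y =
          ((P.eval w - P.eval w') * Q.eval w' - P.eval w' * (Q.eval w - Q.eval w')) /
          (Q.eval w * Q.eval w') := by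
        rw [gR, gR, ← hw, ← hw', div_sub_div _ _ hQx hQy]
        congr 1
        ring
      have h6 : v (P.eval w' * (Q.eval w - Q.eval w')) = v (w - w') := by
        rw [map_mul, r1, one_mul, h5]
      have h7 : v ((P.eval w - P.eval w') * Q.eval w') < v (w - w') := by
        rw [map_mul, mul_comm]
        calc v (Q.eval w') * v (P.eval w - P.eval w') ≤ v (Q.eval w') * v (w - w') :=
              mul_le_mul' le_rfl (eval_sub_le v h.hP.int q3.le r3.le)
          _ < 1 * v (w - w') := (mul_lt_mul_iff_left₀ (zero_lt_iff.mpr hww)).mpr r2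
          _ = _ := one_mul _
      rw [e1, map_div₀, map_mul v (Q.eval w), q4, r4,
        Valuation.map_sub_eq_of_lt_right, h6, h2]
      · rw [mul_div_mul_left _ _ (inv_ne_zero hρ0), div_inv_eq_mul, mul_comm]
      · rw [h6]; exact h7
    have key : ∀ {ζ : K}, ζ ^ e = 1 → ∃ g, v (x - ζ * y) = g ^ (N / Nat.gcd e N) * ρ :=
      fun hζ' => CC_chain hF (fun h' => AS_root h') habs hveq hρ0 hg0 hρ1 hstep px py hx hy
        hne hζ'
    obtain ⟨g, hg⟩ := key hζ1
    obtain ⟨g', hg'⟩ := key hζ1'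
    have hpos : 0 < N / Nat.gcd e N :=
      Nat.div_pos (Nat.gcd_le_right _ hN) (Nat.gcd_pos_of_pos_right _ hN)
    have hg0' : g' ≠ 0 := by
      rintro rfl
      rw [zero_pow hpos.ne', zero_mul, Valuation.zero_iff, sub_eq_zero] at hg'
      apply hne
      apply OnePoint.coe_injective
      apply per_inj (k := 1) px py
      rw [Function.iterate_one, hg', fR_root hζ1']
    refine ⟨g / g', ?_⟩
    rw [hg, hg', div_pow, ← mul_assoc, div_mul_cancel₀ _ (pow_ne_zero _ hg0')]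

/-- all places -/
theorem all_rat (h : GR v P Q) (hN : 0 < N) (he : 2 ≤ e) (hs0 : s ≠ 0) {ζ₀ : K}
    (hζ : IsPrimitiveRoot ζ₀ e) (htame : ∀ ζ : K, ζ ^ e = 1 → ζ ≠ 1 → v (1 - ζ) = 1) {x y : K}
    (px : Per (fR P Q N e s) (x : OnePoint K)) (py : Per (fR P Q N e s) (y : OnePoint K))
    (hne : x ≠ y) {ζ ζ' : K} (hζ1 : ζ ^ e = 1) (hζ2 : ζ ≠ 1) (hζ1' : ζ' ^ e = 1) (hζ2' : ζ' ≠ 1) :
    ∃ g, v (x - ζ * y) = g ^ (N / Nat.gcd e N) * v (x - ζ' * y) := by
  rcases lt_trichotomy (v s) 1 with hs | hs | hs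
  · exact small_rat h hN he hs hs0 hζ htame px py hne hζ1 hζ1'
  · refine ⟨1, ?_⟩
    have hpq : (x : OnePoint K) ≠ y := fun h' => hne (OnePoint.coe_injective h')
    have key : ∀ {ζ : K}, ζ ^ e = 1 → ζ ≠ 1 →
        v (x - ζ * y) = nrm v (x : OnePoint K) * nrm v (y : OnePoint K) := by
      intro ζ h1 h2
      have := good_rat h he hs hζ px py hpq h1 h2
      rw [dl, nu_coe, nu_coe, de_coe, de_coe, mul_one, mul_one,
        div_eq_one_iff_eq (mul_ne_zero (nrm_ne v _) (nrm_ne v _))] at this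
      exact this
    rw [key hζ1 hζ2, key hζ1' hζ2', one_pow, one_mul]
  · exact big_rat h hN he hs hζ htame px py hne hζ1 hζ2 hζ1' hζ2'

end loc

end Pool.Agent.H422.MR
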