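import Mathlib
import Pool.Agent.H422.MR.LocS
import Pool.Agent.H422.MF.GlobP
import Pool.Agent.H422.MF.MainP

/-!
# The family `z ↦ (P / Q) (s ^ N * z ^ e)` over a number field
-/

set_option autoImplicit false

open Polynomial IsDedekindDomain NumberField OnePoint

namespace Pool.Agent.H422.MR

open Pool.Agent.H422.HE Pool.Agent.H422.UC Pool.Agent.H422.MF

section fin

variable {K : Type} [Field K] [NumberField K]

lemma GR_finite {P Q : K[X]} (hP : P.Separable) (hQ : Q.Separable) (hP0 : P.coeff 0 ≠ 0)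
    (hQ0 : Q.coeff 0 ≠ 0) (hcop : IsCoprime P Q) (hdeg : P.natDegree = Q.natDegree)
    (hpos : 1 ≤ P.natDegree) :
    {v : HeightOneSpectrum (𝓞 K) | ¬ GR (v.valuation K) P Q}.Finite := by
  obtain ⟨U, V, hUV⟩ := hcop
  refine ((((GP_finite hP hP0).union (GP_finite hQ hQ0)).union (intP_finite U)).union
    (intP_finite V)).subset ?_
  intro v hv
  by_contra hcon
  simp only [Set.mem_union, Set.mem_ofPred_eq, not_or, not_not] at hcon
  obtain ⟨⟨⟨h1, h2⟩, h3⟩, h4⟩ := hcon
  exact hv ⟨h1, h2, ⟨U, V, h3, h4, hUV⟩, hdeg, hpos⟩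

end fin

section loc

variable {K : Type*} [Field K] {Γ : Type*} [LinearOrderedCommGroupWithZero Γ] {v : Valuation K Γ}
  {P Q : K[X]} {N e : ℕ} {s : K}

lemma near_root {R : Finset K} {P : K[X]} (hlc : v P.leadingCoeff = 1)
    (hRR : ∀ r ∈ R, ∀ r' ∈ R, r ≠ r' → v (r - r') = 1)
    (hfac : P = C P.leadingCoeff * ∏ r ∈ R, (X - C r)) {r w : K} (hr : r ∈ R)
    (h3 : v (w - r) < 1) : v (P.eval w) = v (w - r) := by
  classical
  have h5 : P.eval w = P.leadingCoeff * ∏ r ∈ R, (w - r) := by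
    conv_lhs => rw [hfac]
    rw [eval_mul, eval_C, eval_prod]
    simp
  rw [h5, map_mul, hlc, one_mul, map_prod, ← Finset.mul_prod_erase _ _ hr]
  have h6 : ∀ r' ∈ R.erase r, v (w - r') = 1 := by
    intro r' hr'
    rw [Finset.mem_erase] at hr'
    have h7 : w - r' = (w - r) + (r - r') := by ring
    have h8 := hRR r hr r' hr'.2 hr'.1.symm
    rw [h7, Valuation.map_add_eq_of_lt_right, h8]
    rw [h8]; exact h3
  rw [Finset.prod_congr rfl h6, Finset.prod_const_one, mul_one]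

/-- the local conditions on `w = s ^ N * y ^ e` -/
theorem loc_W' [DecidableEq K] (h : GR v P Q) {R S : Finset K} (hR : ∀ r ∈ R ∪ S, v r = 1)
    (hRR : ∀ r ∈ R ∪ S, ∀ r' ∈ R ∪ S, r ≠ r' → v (r - r') = 1)
    (hfac : P = C P.leadingCoeff * ∏ r ∈ R, (X - C r))
    (hfac' : Q = C Q.leadingCoeff * ∏ r ∈ S, (X - C r)) (he : 0 < e) (hs0 : s ≠ 0)
    {w τ : K} (hτ : v τ = 1) (hPw : P.eval w ≠ 0) (hQw : Q.eval w ≠ 0)
    (heq : w * (τ * Q.eval w) ^ e = s ^ N * (P.eval w) ^ e) (hw : v w ≤ 1) :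
    ∀ r, (r = 0 ∨ r ∈ R ∪ S) → ∃ g, v (w - r) = g ^ (N / Nat.gcd e N) := by
  have hval : v w * v (Q.eval w) ^ e = v s ^ N * v (P.eval w) ^ e := by
    have := congrArg v heq
    rwa [map_mul, map_mul, map_pow, map_pow, map_pow, map_mul, hτ, one_mul] at this
  rcases lt_or_eq_of_le hw with h1 | h1
  · have h2 : v (P.eval w) = 1 := h.hP.eval_small h1
    have h2' : v (Q.eval w) = 1 := h.hQ.eval_small h1
    intro r hr
    rcases hr with rfl | hr
    · refine ⟨v s ^ Nat.gcd e N, ?_⟩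
      rw [h2, h2', one_pow, mul_one, mul_one] at hval
      rw [sub_zero, hval, ← pow_mul, Nat.mul_div_cancel' (Nat.gcd_dvd_right e N)]
    · refine ⟨1, ?_⟩
      rw [Valuation.map_sub_eq_of_lt_right, hR r hr, one_pow]
      rw [hR r hr]; exact h1
  · intro r hr
    rcases hr with rfl | hr
    · exact ⟨1, by rw [sub_zero, h1, one_pow]⟩
    have hle : v (w - r) ≤ 1 := (v.map_sub _ _).trans (by rw [h1, hR r hr, max_self])
    rcases lt_or_eq_of_le hle with h3 | h3
    swap
    · exact ⟨1, by rw [h3, one_pow]⟩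
    have hmax := h.max_one hw
    have hs0' : v s ≠ 0 := (Valuation.ne_zero_iff _).mpr hs0
    rcases Finset.mem_union.mp hr with hrP | hrQ
    · have h4 : v (P.eval w) = v (w - r) := near_root h.hP.lc
        (fun r hr r' hr' => hRR r (Finset.mem_union_left _ hr) r' (Finset.mem_union_left _ hr'))
        hfac hrP h3
      have h5 : v (w - r) ≠ 0 := by
        rw [← h4]; exact (Valuation.ne_zero_iff _).mpr hPw
      have hQ1 : v (Q.eval w) = 1 := by
        rcases le_total (v (P.eval w)) (v (Q.eval w)) with hm | hm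
        · rwa [max_eq_right hm] at hmax
        · rw [max_eq_left hm, h4] at hmax
          exact absurd hmax h3.ne
      have h6 : v (w - r) ^ e = ((v s)⁻¹) ^ N := by
        rw [inv_pow]
        rw [h1, h4, hQ1, one_pow, mul_one] at hval
        exact (inv_eq_of_mul_eq_one_right hval.symm).symm
      exact pow_cl_nat h5 he h6
    · have h4 : v (Q.eval w) = v (w - r) := near_root h.hQ.lc
        (fun r hr r' hr' => hRR r (Finset.mem_union_right _ hr) r' (Finset.mem_union_right _ hr'))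
        hfac' hrQ h3
      have h5 : v (w - r) ≠ 0 := by
        rw [← h4]; exact (Valuation.ne_zero_iff _).mpr hQw
      have hP1 : v (P.eval w) = 1 := by
        rcases le_total (v (P.eval w)) (v (Q.eval w)) with hm | hm
        · rw [max_eq_right hm, h4] at hmax
          exact absurd hmax h3.ne
        · rwa [max_eq_left hm] at hmax
      have h6 : v (w - r) ^ e = (v s) ^ N := by
        rwa [h1, h4, hP1, one_pow, mul_one, one_mul] at hval
      exact pow_cl_nat h5 he h6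

end loc

section glob

variable {K : Type} [Field K] [NumberField K] {e N : ℕ} {ζ₀ : K} {P Q : K[X]}

/-- the finite set of ratios of periodic points -/
def RT2 (K : Type) [Field K] [NumberField K] (P Q : K[X]) (N e : ℕ) : Set K :=
  {t : K | ∀ v ∉ Sbad K e ∪ {v : HeightOneSpectrum (𝓞 K) | ¬ GR (v.valuation K) P Q},
    ∀ r ∈ rts K e, ∀ r' ∈ rts K e,
      ∃ g, v.valuation K (t - r) = g ^ (N / Nat.gcd e N) * v.valuation K (t - r')}

lemma RT2_finite (hfin : {v : HeightOneSpectrum (𝓞 K) | ¬ GR (v.valuation K) P Q}.Finite)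
    (hζ : IsPrimitiveRoot ζ₀ e)
    (he : 2 ≤ e) (hyp : Hyp (N / Nat.gcd e N) (e - 1)) : (RT2 K P Q N e).Finite := by
  classical
  apply pow_fin_proj K ((Sbad_finite he).union hfin)
  have : (rts K e).card = e - 1 := by
    rw [rts, Finset.card_erase_of_mem ((mem_roots' he).mpr (one_pow e)), hζ.card_nthRootsFinset]
  rw [this]
  exact hyp

lemma RT2_mem (hN : 0 < N) (he : 2 ≤ e) (hζ : IsPrimitiveRoot ζ₀ e) {s : K}
    (hs0 : s ≠ 0) {x y : K} (px : Per (fR P Q N e s) (x : OnePoint K))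
    (py : Per (fR P Q N e s) (y : OnePoint K)) (hne : x ≠ y)
    (hy0 : y ≠ 0) : x / y ∈ RT2 K P Q N e := by
  intro v hv r hr r' hr'
  rw [Set.mem_union, not_or, Set.mem_ofPred_eq, not_not] at hv
  rw [mem_rts he] at hr hr'
  obtain ⟨g, hg⟩ := all_rat hv.2 hN he hs0 hζ (tame_of he hv.1) px py hne hr.1 hr.2
    hr'.1 hr'.2
  refine ⟨g, ?_⟩
  have e1 : ∀ r : K, x / y - r = (x - r * y) / y := by intro r; field_simp
  rw [e1, e1, map_div₀, map_div₀, hg, mul_div_assoc]

/-- the finite set of values of `s ^ N * y ^ e` -/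
def WT2 (K : Type) [Field K] [NumberField K] (P Q : K[X]) (N e : ℕ) (R : Finset K) (τ : K) :
    Set K :=
  {w : K | ∀ v ∉ ({v : HeightOneSpectrum (𝓞 K) | ¬ GR (v.valuation K) P Q} ∪
      {v : HeightOneSpectrum (𝓞 K) | v.valuation K τ ≠ 1}) ∪ Rbad K R,
    ∀ r, (r = 0 ∨ r ∈ R) → ∀ r', (r' = 0 ∨ r' ∈ R) →
      ∃ g, v.valuation K (w - r) = g ^ (N / Nat.gcd e N) * v.valuation K (w - r')}

lemma WT2_finite (hfin : {v : HeightOneSpectrum (𝓞 K) | ¬ GR (v.valuation K) P Q}.Finite)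
    {R : Finset K} (hR0 : (0 : K) ∉ R)
    {τ : K} (hτ : τ ≠ 0) (hyp : Hyp (N / Nat.gcd e N) (R.card + 1)) :
    (WT2 K P Q N e R τ).Finite := by
  classical
  refine (pow_fin_proj K ((hfin.union (finite_unit τ hτ)).union
    (Rbad_finite hR0)) (m := N / Nat.gcd e N) (R := insert 0 R) (by
      rw [Finset.card_insert_of_notMem hR0]; exact hyp)).subset ?_
  intro w hw v hv r hr r' hr'
  exact hw v hv r (Finset.mem_insert.mp hr) r' (Finset.mem_insert.mp hr')

omit [NumberField K] in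
lemma eval_prod_ne {R : Finset K} {P : K[X]} (hfac : P = C P.leadingCoeff * ∏ r ∈ R, (X - C r))
    {w r : K} (hPw : P.eval w ≠ 0) (hr : r ∈ R) : w - r ≠ 0 := by
  classical
  intro h0
  apply hPw
  rw [hfac, eval_mul, eval_prod, Finset.prod_eq_zero hr, mul_zero]
  simpa using h0

lemma WT2_mem [DecidableEq K] {R S : Finset K}
    (hfac : P = C P.leadingCoeff * ∏ r ∈ R, (X - C r))
    (hfac' : Q = C Q.leadingCoeff * ∏ r ∈ S, (X - C r)) (he : 0 < e) {s : K}
    (hs0 : s ≠ 0) {w τ : K} (hw0 : w ≠ 0) (hPw : P.eval w ≠ 0) (hQw : Q.eval w ≠ 0)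
    (heq : w * (τ * Q.eval w) ^ e = s ^ N * (P.eval w) ^ e) : w ∈ WT2 K P Q N e (R ∪ S) τ := by
  intro v hv r hr r' hr'
  simp only [Rbad, Set.mem_union, Set.mem_ofPred_eq, not_or, not_exists, not_and, not_not] at hv
  obtain ⟨⟨hPQ, hτ⟩, hR, hRR⟩ := hv
  rcases lt_or_ge 1 (v.valuation K w) with h1 | h1
  · refine ⟨1, ?_⟩
    have h2 : ∀ r, (r = 0 ∨ r ∈ R ∪ S) → v.valuation K (w - r) = v.valuation K w := by
      intro r hr
      apply Valuation.map_sub_eq_of_lt_left
      rcases hr with rfl | hr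
      · rw [map_zero]; exact lt_trans zero_lt_one h1
      · rw [hR r hr]; exact h1
    rw [h2 r hr, h2 r' hr', one_pow, one_mul]
  · have key := loc_W' hPQ hR (fun r hr r' hr' hne => hRR r hr r' hr' hne) hfac hfac' he hs0
      hτ hPw hQw heq h1
    obtain ⟨g, hg⟩ := key r hr
    obtain ⟨g', hg'⟩ := key r' hr'
    have hwr : w - r' ≠ 0 := by
      rcases hr' with rfl | hr'
      · rwa [sub_zero]
      · rcases Finset.mem_union.mp hr' with hr' | hr'
        · exact eval_prod_ne hfac hPw hr'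
        · exact eval_prod_ne hfac' hQw hr'
    have hg0 : g' ^ (N / Nat.gcd e N) ≠ 0 := by
      rw [← hg']; exact (Valuation.ne_zero_iff _).mpr hwr
    refine ⟨g / g', ?_⟩
    rw [hg, hg', div_pow, div_mul_cancel₀ _ hg0]

omit [NumberField K] in
lemma root_mem {R : Finset K} {P : K[X]} (hP0 : P ≠ 0)
    (hfac : P = C P.leadingCoeff * ∏ r ∈ R, (X - C r))
    {w : K} (hPw : P.eval w = 0) : w ∈ R := by
  classical
  rw [hfac, eval_mul, eval_C, mul_eq_zero, eval_prod, Finset.prod_eq_zero_iff] at hPw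
  rcases hPw with h1 | ⟨r, hr, h1⟩
  · exact absurd (leadingCoeff_eq_zero.mp h1) hP0
  · rw [eval_sub, eval_X, eval_C, sub_eq_zero] at h1
    rw [h1]; exact hr

/-- the exceptional parameters -/
theorem exc_finite2 (hP : P.Separable) (hQ : Q.Separable) (hP0 : P.coeff 0 ≠ 0)
    (hQ0 : Q.coeff 0 ≠ 0) (hcop : IsCoprime P Q) (hdeg : P.natDegree = Q.natDegree)
    (hpos : 1 ≤ P.natDegree) (hN : 0 < N)
    (he : 2 ≤ e) (hζ : IsPrimitiveRoot ζ₀ e) {R S : Finset K}
    (hRc : R.card = P.natDegree) (hSc : S.card = P.natDegree)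
    (hfac : P = C P.leadingCoeff * ∏ r ∈ R, (X - C r))
    (hfac' : Q = C Q.leadingCoeff * ∏ r ∈ S, (X - C r))
    (hyp1 : Hyp (N / Nat.gcd e N) (e - 1))
    (hyp2 : Hyp (N / Nat.gcd e N) (2 * P.natDegree + 1)) :
    {s : K | s ≠ 0 ∧ ∃ p : OnePoint K, Per (fR P Q N e s) p}.Finite := by
  classical
  have hfin := GR_finite hP hQ hP0 hQ0 hcop hdeg hpos
  have hPn : P ≠ 0 := by rintro rfl; simp at hP0
  have hQn : Q ≠ 0 := by rintro rfl; simp at hQ0
  have hevR : ∀ {T : Finset K} {A : K[X]}, A = C A.leadingCoeff * ∏ r ∈ T, (X - C r) →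
      ∀ r ∈ T, A.eval r = 0 := by
    intro T A hA r hr
    rw [hA, eval_mul, eval_prod, Finset.prod_eq_zero hr, mul_zero]
    simp
  have hR0 : (0 : K) ∉ R ∪ S := by
    intro hcon
    rcases Finset.mem_union.mp hcon with hcon | hcon
    · exact hP0 (by rw [coeff_zero_eq_eval_zero]; exact hevR hfac 0 hcon)
    · exact hQ0 (by rw [coeff_zero_eq_eval_zero]; exact hevR hfac' 0 hcon)
  have hdisj : Disjoint R S := by
    rw [Finset.disjoint_left]
    intro r h1 h2
    obtain ⟨U, V, hUV⟩ := id hcop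
    have := congrArg (eval r) hUV
    rw [eval_add, eval_mul, eval_mul, hevR hfac r h1, hevR hfac' r h2] at this
    simp at this
  have hcard : (R ∪ S).card = 2 * P.natDegree := by
    rw [Finset.card_union_of_disjoint hdisj, hRc, hSc]; ring
  set T : Set K := (RT2 K P Q N e ∪ {1}) \ {0} with hT
  have hTfin : T.Finite := ((RT2_finite hfin hζ he hyp1).union (Set.finite_singleton 1)).sdiff
  set c0 : K := P.eval 0 / Q.eval 0 with hc0
  set c1 : K := P.leadingCoeff / Q.leadingCoeff with hc1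
  have hP00 : P.eval 0 ≠ 0 := by rwa [← coeff_zero_eq_eval_zero]
  have hQ00 : Q.eval 0 ≠ 0 := by rwa [← coeff_zero_eq_eval_zero]
  have hc00 : c0 ≠ 0 := div_ne_zero hP00 hQ00
  have hc10 : c1 ≠ 0 := div_ne_zero (leadingCoeff_ne_zero.mpr hPn) (leadingCoeff_ne_zero.mpr hQn)
  have hfinal : ((⋃ τ ∈ T, ⋃ w ∈ WT2 K P Q N e (R ∪ S) τ,
      {s : K | s ^ N = w * (τ * Q.eval w) ^ e / (P.eval w) ^ e}) ∪
      ((⋃ r ∈ R ∪ S, {s : K | s ^ N = r / c0 ^ e}) ∪
        (⋃ r ∈ R ∪ S, {s : K | s ^ N = r / c1 ^ e}))).Finite := by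
    refine Set.Finite.union (hTfin.biUnion fun τ hτ => ?_) (Set.Finite.union
      ((R ∪ S).finite_toSet.biUnion fun r _ => pow_eq_finite hN _)
      ((R ∪ S).finite_toSet.biUnion fun r _ => pow_eq_finite hN _))
    exact (WT2_finite hfin hR0 (by simpa using hτ.2) (by rwa [hcard])).biUnion fun w _ =>
      pow_eq_finite hN _
  refine hfinal.subset ?_
  rintro s ⟨hs0, p, pp⟩
  set F := fR P Q N e s with hF
  have hF0 : F ((0 : K) : OnePoint K) = (c0 : OnePoint K) := by
    rw [hF, fR_coe, zero_pow (show e ≠ 0 by omega), mul_zero, pt_ne hQ00]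
  have hF1 : F ∞ = (c1 : OnePoint K) := by
    rw [hF, fR_infty hs0 (by omega) hdeg, pt_ne (leadingCoeff_ne_zero.mpr hQn)]
  -- the value at `c` is a nonzero finite point unless `s ^ N * c ^ e` is a root
  have hval : ∀ c : K, (∃ z : K, z ≠ 0 ∧ F (c : OnePoint K) = (z : OnePoint K)) ∨
      s ^ N * c ^ e ∈ R ∪ S := by
    intro c
    by_cases h1 : Q.eval (s ^ N * c ^ e) = 0
    · exact Or.inr (Finset.mem_union_right _ (root_mem hQn hfac' h1))
    by_cases h2 : P.eval (s ^ N * c ^ e) = 0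
    · exact Or.inr (Finset.mem_union_left _ (root_mem hPn hfac h2))
    · exact Or.inl ⟨gR P Q N e s c, div_ne_zero h2 h1, fR_coe_ne h1⟩
  -- the two special points
  have hspec : ∀ c : K, c ≠ 0 → Per F (c : OnePoint K) →
      (∃ y z : K, y ≠ 0 ∧ z ≠ 0 ∧ Per F (y : OnePoint K) ∧ F (y : OnePoint K) = (z : OnePoint K)) ∨
      s ^ N * c ^ e ∈ R ∪ S := by
    intro c hc pc
    rcases hval c with ⟨z, hz, hz'⟩ | h1
    · exact Or.inl ⟨c, z, hc, hz, pc, hz'⟩
    · exact Or.inr h1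
  have hcases : (∃ y z : K, y ≠ 0 ∧ z ≠ 0 ∧ Per F (y : OnePoint K) ∧
      F (y : OnePoint K) = (z : OnePoint K)) ∨ s ^ N * c0 ^ e ∈ R ∪ S ∨
      s ^ N * c1 ^ e ∈ R ∪ S := by
    have hzero : Per F ((0 : K) : OnePoint K) → (∃ y z : K, y ≠ 0 ∧ z ≠ 0 ∧
        Per F (y : OnePoint K) ∧ F (y : OnePoint K) = (z : OnePoint K)) ∨
        s ^ N * c0 ^ e ∈ R ∪ S ∨ s ^ N * c1 ^ e ∈ R ∪ S := by
      intro h0
      have h1 := h0.step
      rw [hF0] at h1
      rcases hspec c0 hc00 h1 with h | h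
      · exact Or.inl h
      · exact Or.inr (Or.inl h)
    have hinf : Per F ∞ → (∃ y z : K, y ≠ 0 ∧ z ≠ 0 ∧
        Per F (y : OnePoint K) ∧ F (y : OnePoint K) = (z : OnePoint K)) ∨
        s ^ N * c0 ^ e ∈ R ∪ S ∨ s ^ N * c1 ^ e ∈ R ∪ S := by
      intro h0
      have h1 := h0.step
      rw [hF1] at h1
      rcases hspec c1 hc10 h1 with h | h
      · exact Or.inl h
      · exact Or.inr (Or.inr h)
    induction p using OnePoint.rec with
    | infty => exact hinf pp
    | coe y =>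
      by_cases hy : y = 0
      · rw [hy] at pp; exact hzero pp
      · have h1 := pp.step
        by_cases h2 : F (y : OnePoint K) = ∞
        · rw [h2] at h1; exact hinf h1
        · obtain ⟨z, hz⟩ := OnePoint.ne_infty_iff_exists.mp h2
          by_cases hz0 : z = 0
          · rw [← hz, hz0] at h1; exact hzero h1
          · exact Or.inl ⟨y, z, hy, hz0, pp, hz.symm⟩
  rcases hcases with ⟨y, z, hy0, hz0, py, hyz⟩ | hroot | hroot
  · left
    have pz : Per F (z : OnePoint K) := by rw [← hyz]; exact py.step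
    set w := s ^ N * y ^ e with hw
    have hQw : Q.eval w ≠ 0 := by
      intro h0
      have := fR_coe_eq (P := P) (Q := Q) (N := N) (e := e) (s := s) (z := y) h0
      rw [← hF, hyz] at this
      exact OnePoint.coe_ne_infty z this
    have hz : z = P.eval w / Q.eval w := by
      have h1 := fR_coe_ne (P := P) (Q := Q) (N := N) (e := e) (s := s) (z := y) hQw
      rw [← hF, hyz] at h1
      exact OnePoint.coe_injective h1
    set τ := z / y with hτ
    have hτ0 : τ ≠ 0 := div_ne_zero hz0 hy0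
    have hτT : τ ∈ T := by
      refine ⟨?_, hτ0⟩
      by_cases h1 : z = y
      · right; rw [Set.mem_singleton_iff, hτ, h1, div_self hy0]
      · left; exact RT2_mem hN he hζ hs0 pz py h1 hy0
    have hPw : P.eval w = τ * Q.eval w * y := by
      rw [hτ]
      field_simp
      rw [hz]
      field_simp
    have hPw0 : P.eval w ≠ 0 := by
      rw [hPw]; exact mul_ne_zero (mul_ne_zero hτ0 hQw) hy0
    have hw0 : w ≠ 0 := mul_ne_zero (pow_ne_zero _ hs0) (pow_ne_zero _ hy0)
    have heq : w * (τ * Q.eval w) ^ e = s ^ N * (P.eval w) ^ e := by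
      rw [hPw, hw, mul_pow _ y]; ring
    simp only [Set.mem_iUnion]
    refine ⟨τ, hτT, w, WT2_mem hfac hfac' (by omega) hs0 hw0 hPw0 hQw heq, ?_⟩
    rw [Set.mem_ofPred_eq, heq, mul_div_cancel_right₀ _ (pow_ne_zero _ hPw0)]
  · right; left
    simp only [Set.mem_iUnion]
    exact ⟨_, hroot, by rw [Set.mem_ofPred_eq, mul_div_cancel_right₀ _ (pow_ne_zero _ hc00)]⟩
  · right; right
    simp only [Set.mem_iUnion]
    exact ⟨_, hroot, by rw [Set.mem_ofPred_eq, mul_div_cancel_right₀ _ (pow_ne_zero _ hc10)]⟩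

end glob

end Pool.Agent.H422.MR
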