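import Mathlib
import Pool.Agent.H422.MR.Glob
import Pool.Agent.H422.MR.North

/-!
# The family `z ↦ s ^ a * (P / Q) (s ^ b * z ^ e)` over a number field: all preperiodic points
-/

set_option autoImplicit false

open Polynomial IsDedekindDomain NumberField OnePoint

namespace Pool.Agent.H422.MR

open Pool.Agent.H422.HE Pool.Agent.H422.UC Pool.Agent.H422.MF

section ext

variable {K L : Type*} [Field K] [Field L] (φ : K →+* L)

/-- base change of points -/
def bc : OnePoint K → OnePoint L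
  | ∞ => ∞
  | (z : K) => (φ z : L)

@[simp] lemma bc_infty : bc φ ∞ = ∞ := rfl
@[simp] lemma bc_coe (z : K) : bc φ (z : OnePoint K) = ((φ z : L) : OnePoint L) := rfl

lemma bc_pt (a b : K) : pt (φ a) (φ b) = bc φ (pt a b) := by
  by_cases hb : b = 0
  · rw [hb, map_zero, pt_zero, pt_zero, bc_infty]
  · rw [pt_ne hb, pt_ne ((map_ne_zero φ).mpr hb), bc_coe, map_div₀]

lemma bc_rat (P Q : K[X]) (p : OnePoint K) : rat (P.map φ) (Q.map φ) (bc φ p) =
    bc φ (rat P Q p) := by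
  induction p using OnePoint.rec with
  | infty =>
    rw [bc_infty, rat_infty, rat_infty, natDegree_map, natDegree_map, coeff_map, coeff_map, bc_pt]
  | coe z =>
    rw [bc_coe, rat_coe, rat_coe, eval_map, eval_map, eval₂_at_apply, eval₂_at_apply, bc_pt]

lemma bc_fR (P Q : K[X]) (N e : ℕ) (s : K) (p : OnePoint K) :
    fR (P.map φ) (Q.map φ) N e (φ s) (bc φ p) = bc φ (fR P Q N e s p) := by
  rw [fR, fR, ← bc_rat]
  congr 1 <;> simp [Polynomial.map_comp]

lemma bc_iter (P Q : K[X]) (N e : ℕ) (s : K) (p : OnePoint K) (n : ℕ) :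
    (fR (P.map φ) (Q.map φ) N e (φ s))^[n] (bc φ p) = bc φ ((fR P Q N e s)^[n] p) := by
  induction n with
  | zero => rfl
  | succ n ih => rw [Function.iterate_succ_apply', Function.iterate_succ_apply', ih, bc_fR]

end ext

/-- **Finitely many parameters with preperiodic points.** -/
theorem main_fin2 (K : Type) [Field K] [NumberField K] {P Q : K[X]} (hP : P.Separable)
    (hQ : Q.Separable) (hP0 : P.coeff 0 ≠ 0) (hQ0 : Q.coeff 0 ≠ 0) (hcop : IsCoprime P Q)
    (hdeg : P.natDegree = Q.natDegree) (hpos : 1 ≤ P.natDegree) {e N : ℕ} (hN : 0 < N)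
    (he : 2 ≤ e)
    (hyp1 : Hyp (N / Nat.gcd e N) (e - 1)) (hyp2 : Hyp (N / Nat.gcd e N) (2 * P.natDegree + 1)) :
    {s : K | s ≠ 0 ∧ ∃ p : OnePoint K, Pre (fR P Q N e s) p}.Finite := by
  classical
  have : NeZero e := ⟨by omega⟩
  have : NeZero ((e : ℕ) : K) := ⟨Nat.cast_ne_zero.mpr (by omega)⟩
  set L0 := CyclotomicField e K with hL0
  have hζ0 := IsCyclotomicExtension.zeta_spec e K L0
  set φ0 : K →+* L0 := algebraMap K L0 with hφ0
  obtain ⟨L, _, _, φ1, hφ1⟩ := exists_split L0 ((P * Q).map φ0)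
  set φ := φ1.comp φ0 with hφ
  have hP00 : P ≠ 0 := by rintro rfl; simp at hP0
  have hQ00 : Q ≠ 0 := by rintro rfl; simp at hQ0
  have hsp : ((P * Q).map φ).Splits := by rwa [hφ, ← Polynomial.map_map]
  have hPQ : (P.map φ) * (Q.map φ) ≠ 0 :=
    mul_ne_zero ((Polynomial.map_ne_zero_iff φ.injective).mpr hP00)
      ((Polynomial.map_ne_zero_iff φ.injective).mpr hQ00)
  rw [Polynomial.map_mul] at hsp
  have hspP : (P.map φ).Splits := hsp.of_dvd hPQ (dvd_mul_right _ _)
  have hspQ : (Q.map φ).Splits := hsp.of_dvd hPQ (dvd_mul_left _ _)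
  have hζ := hζ0.map_of_injective (f := φ1) φ1.injective
  obtain ⟨R, hR, hfac⟩ := split_prod hspP hP.map
  obtain ⟨S, hS, hfac'⟩ := split_prod hspQ hQ.map
  have hcop' : IsCoprime (P.map φ) (Q.map φ) := hcop.map (mapRingHom φ)
  have hfin := exc_finite2 (P := P.map φ) (Q := Q.map φ) (N := N) hP.map hQ.map
    (by rw [coeff_map]; exact (map_ne_zero φ).mpr hP0)
    (by rw [coeff_map]; exact (map_ne_zero φ).mpr hQ0) hcop'
    (by rw [natDegree_map, natDegree_map, hdeg]) (by rwa [natDegree_map]) hN he hζ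
    hR (by rw [hS, natDegree_map, natDegree_map, hdeg]) hfac hfac' hyp1 (by rwa [natDegree_map])
  refine (hfin.preimage (f := φ) φ.injective.injOn).subset ?_
  rintro s ⟨hs0, p, pp⟩
  refine ⟨(map_ne_zero φ).mpr hs0, ?_⟩
  obtain ⟨k, n, hn, hk⟩ := pp.exists_per
  refine ⟨bc φ ((fR P Q N e s)^[k] p), n, hn, ?_⟩
  rw [bc_iter, hk]

lemma comp_coprime {K : Type*} [Field K] {P Q : K[X]} (h : IsCoprime P Q) (A : K[X]) :
    IsCoprime (P.comp A) (Q.comp A) := by
  obtain ⟨U, V, hUV⟩ := h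
  refine ⟨U.comp A, V.comp A, ?_⟩
  rw [← mul_comp, ← mul_comp, ← add_comp, hUV, one_comp]

/-- **Uniform boundedness and emptiness.** -/
theorem main_bound2 (K : Type) [Field K] [NumberField K] {P Q : K[X]} (hP : P.Separable)
    (hQ : Q.Separable) (hP0 : P.coeff 0 ≠ 0) (hQ0 : Q.coeff 0 ≠ 0) (hcop : IsCoprime P Q)
    (hdeg : P.natDegree = Q.natDegree) (hpos : 1 ≤ P.natDegree) {e N : ℕ} (hN : 0 < N)
    (he : 2 ≤ e)
    (hyp1 : Hyp (N / Nat.gcd e N) (e - 1)) (hyp2 : Hyp (N / Nat.gcd e N) (2 * P.natDegree + 1)) :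
    ∃ (E : Finset K) (B : ℕ), ∀ (s : K) (T : Finset (OnePoint K)), s ≠ 0 →
      (∀ p ∈ T, Pre (fR P Q N e s) p) → T.card ≤ B ∧ (s ∉ E → T = ∅) := by
  classical
  set E := (main_fin2 K hP hQ hP0 hQ0 hcop hdeg hpos hN he hyp1 hyp2).toFinset with hE
  have hnor : ∀ s : K, s ≠ 0 → {p : OnePoint K | Pre (fR P Q N e s) p}.Finite := by
    intro s hs0
    apply northcott_rat (comp_coprime hcop _)
    refine le_trans ?_ (le_max_left _ _)
    rw [natDegree_comp, natDegree_C_mul_X_pow _ _ (pow_ne_zero _ hs0)]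
    nlinarith
  set c : K → ℕ := fun s => if h : s ≠ 0 then (hnor s h).toFinset.card else 0 with hc
  refine ⟨E, ∑ s ∈ E, c s, fun s T hs0 hT => ?_⟩
  have h1 : s ∉ E → T = ∅ := by
    intro hsE
    rw [Finset.eq_empty_iff_forall_notMem]
    intro x hx
    apply hsE
    rw [hE, Set.Finite.mem_toFinset]
    exact ⟨hs0, x, hT x hx⟩
  refine ⟨?_, h1⟩
  by_cases hsE : s ∈ E
  · have h2 : T ⊆ (hnor s hs0).toFinset := by
      intro x hx
      rw [Set.Finite.mem_toFinset]
      exact hT x hx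
    calc T.card ≤ (hnor s hs0).toFinset.card := Finset.card_le_card h2
      _ = c s := by simp only [hc]; rw [dif_pos hs0]
      _ ≤ _ := Finset.single_le_sum (f := c) (fun _ _ => Nat.zero_le _) hsE
  · rw [h1 hsE]
    simp

section conj

variable {K : Type*} [Field K]

/-- scaling by `c` -/
noncomputable def scl (c : K) (p : OnePoint K) : OnePoint K := pt (c * nu p) (de p)

lemma scl_coe (c z : K) : scl c (z : OnePoint K) = ((c * z : K) : OnePoint K) := by
  simp [scl, pt_ne]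

lemma scl_infty (c : K) : scl c ∞ = ∞ := by
  simp [scl, pt_zero]

lemma scl_pt {c : K} (hc : c ≠ 0) (a b : K) : scl c (pt a b) = pt (c * a) b := by
  by_cases hb : b = 0
  · rw [hb, pt_zero, pt_zero, scl_infty]
  · rw [pt_ne hb, pt_ne hb, scl_coe, mul_div_assoc]

lemma scl_inj {c : K} (hc : c ≠ 0) : Function.Injective (scl c) := by
  intro p q h
  induction p using OnePoint.rec with
  | infty =>
    induction q using OnePoint.rec with
    | infty => rfl
    | coe w => rw [scl_infty, scl_coe] at h; exact absurd h.symm (OnePoint.coe_ne_infty _)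
  | coe z =>
    induction q using OnePoint.rec with
    | infty => rw [scl_infty, scl_coe] at h; exact absurd h (OnePoint.coe_ne_infty _)
    | coe w =>
      rw [scl_coe, scl_coe] at h
      have := OnePoint.coe_injective h
      rw [mul_right_injective₀ hc this]

/-- the two-parameter form of the family -/
noncomputable def fab (P Q : K[X]) (a b : ℤ) (e : ℕ) (s : K) : OnePoint K → OnePoint K :=
  rat (C (s ^ a) * P.comp (C (s ^ b) * X ^ e)) (Q.comp (C (s ^ b) * X ^ e))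

lemma rat_Cmul {c : K} (hc : c ≠ 0) (P Q : K[X]) (p : OnePoint K) :
    rat (C c * P) Q p = scl c (rat P Q p) := by
  induction p using OnePoint.rec with
  | infty =>
    rw [rat_infty, rat_infty, natDegree_C_mul hc, coeff_C_mul, scl_pt hc]
  | coe z =>
    rw [rat_coe, rat_coe, eval_mul, eval_C, scl_pt hc]

/-- composition with a scaling -/
lemma rat_scl {c : K} (hc : c ≠ 0) {P Q : K[X]} (hdeg : P.natDegree = Q.natDegree) (e : ℕ)
    (he : 1 ≤ e) {u : K} (hu : u ≠ 0) (p : OnePoint K) :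
    rat (P.comp (C u * X ^ e)) (Q.comp (C u * X ^ e)) (scl c p) =
      rat (P.comp (C (u * c ^ e) * X ^ e)) (Q.comp (C (u * c ^ e) * X ^ e)) p := by
  induction p using OnePoint.rec with
  | infty =>
    have h := fun (u : K) (hu : u ≠ 0) =>
      fR_infty (P := P) (Q := Q) (N := 1) (e := e) (s := u) hu he hdeg
    have h1 := h u hu
    have h2 := h (u * c ^ e) (mul_ne_zero hu (pow_ne_zero _ hc))
    rw [fR, pow_one] at h1 h2
    rw [scl_infty, h1, h2]
  | coe z =>
    rw [scl_coe, rat_coe, rat_coe]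
    simp only [eval_comp, eval_mul, eval_C, eval_pow, eval_X]
    rw [mul_pow, mul_assoc]

lemma fab_conj {P Q : K[X]} (hdeg : P.natDegree = Q.natDegree) (a b : ℤ) {e : ℕ} (he : 1 ≤ e)
    {s : K} (hs0 : s ≠ 0) (p : OnePoint K) :
    fab P Q a b e s (scl (s ^ a) p) = scl (s ^ a)
      (rat (P.comp (C (s ^ (e * a + b)) * X ^ e)) (Q.comp (C (s ^ (e * a + b)) * X ^ e)) p) := by
  rw [fab, rat_Cmul (zpow_ne_zero _ hs0), rat_scl (zpow_ne_zero _ hs0) hdeg e he
    (zpow_ne_zero _ hs0)]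
  have : s ^ b * (s ^ a) ^ e = s ^ (e * a + b) := by
    rw [← zpow_natCast, ← zpow_mul, ← zpow_add₀ hs0]
    congr 1
    ring
  rw [this]

lemma fab_conj_iter {P Q : K[X]} (hdeg : P.natDegree = Q.natDegree) (a b : ℤ) {e : ℕ}
    (he : 1 ≤ e) {s : K} (hs0 : s ≠ 0) (p : OnePoint K) (n : ℕ) :
    (fab P Q a b e s)^[n] (scl (s ^ a) p) = scl (s ^ a)
      ((rat (P.comp (C (s ^ (e * a + b)) * X ^ e)) (Q.comp (C (s ^ (e * a + b)) * X ^ e)))^[n]
        p) := by
  induction n with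
  | zero => rfl
  | succ n ih =>
    rw [Function.iterate_succ_apply', Function.iterate_succ_apply', ih, fab_conj hdeg a b he hs0]

lemma scl_scl {c : K} (hc : c ≠ 0) (p : OnePoint K) : scl c (scl c⁻¹ p) = p := by
  induction p using OnePoint.rec with
  | infty => rw [scl_infty, scl_infty]
  | coe z => rw [scl_coe, scl_coe, mul_inv_cancel_left₀ hc]

end conj

/-- **The family `s ^ a * (P / Q) (s ^ b * z ^ e)`.** -/
theorem main_ab2 (K : Type) [Field K] [NumberField K] {P Q : K[X]} (hP : P.Separable)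
    (hQ : Q.Separable) (hP0 : P.coeff 0 ≠ 0) (hQ0 : Q.coeff 0 ≠ 0) (hcop : IsCoprime P Q)
    (hdeg : P.natDegree = Q.natDegree) {e : ℕ} {a b : ℤ} {M : ℕ}
    (hM : M * Int.gcd e b = (e * a + b).natAbs)
    (hyp1 : Hyp M (e - 1)) (hyp2 : Hyp M (2 * P.natDegree + 1)) :
    ∃ (E : Finset K) (B : ℕ), ∀ (s : K) (T : Finset (OnePoint K)), s ≠ 0 →
      (∀ p ∈ T, Pre (fab P Q a b e s) p) → T.card ≤ B ∧ (s ∉ E → T = ∅) := by
  classical
  have hM2 : 2 ≤ M := by unfold Hyp at hyp1; omega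
  have he : 2 ≤ e := by unfold Hyp at hyp1; omega
  have hm : 1 ≤ P.natDegree := by unfold Hyp at hyp2; omega
  set N := (e * a + b).natAbs with hNdef
  have hg : Nat.gcd e N = Int.gcd e b := by
    have h1 : Int.gcd e (e * a + b) = Int.gcd e b := by
      rw [add_comm, mul_comm, Int.gcd_add_mul_right_right]
    rw [← h1, Int.gcd_def, Int.natAbs_natCast]
  have hgpos : 0 < Int.gcd e b := by
    rw [← hg]; exact Nat.gcd_pos_of_pos_left _ (by omega)
  have hN : 0 < N := by rw [← hM]; positivity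
  have hMN : N / Nat.gcd e N = M := by
    rw [hg, ← hM]; exact Nat.mul_div_cancel _ hgpos
  obtain ⟨E, B, hEB⟩ := main_bound2 K (e := e) (N := N) hP hQ hP0 hQ0 hcop hdeg hm hN he
    (by rwa [hMN]) (by rwa [hMN])
  refine ⟨E ∪ E.image (fun s => s⁻¹), B, fun s T hs0 hT => ?_⟩
  have hsa : s ^ a ≠ 0 := zpow_ne_zero _ hs0
  -- the normalised parameter
  obtain ⟨s', hs', hs'E, hpow⟩ : ∃ s' : K, s' ≠ 0 ∧ (s ∉ E ∪ E.image (fun s => s⁻¹) → s' ∉ E) ∧
      s ^ (e * a + b) = s' ^ N := by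
    rcases le_or_gt 0 (e * a + b) with h | h
    · refine ⟨s, hs0, fun h' h'' => h' (Finset.mem_union_left _ h''), ?_⟩
      rw [← zpow_natCast, hNdef, Int.natAbs_of_nonneg h]
    · refine ⟨s⁻¹, inv_ne_zero hs0, fun h' h'' => h' (Finset.mem_union_right _ ?_), ?_⟩
      · exact Finset.mem_image.mpr ⟨s⁻¹, h'', inv_inv s⟩
      · rw [inv_pow, ← zpow_natCast, ← zpow_neg, hNdef, Int.ofNat_natAbs_of_nonpos h.le, neg_neg]
  have hfun : rat (P.comp (C (s ^ (e * a + b)) * X ^ e)) (Q.comp (C (s ^ (e * a + b)) * X ^ e)) =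
      fR P Q N e s' := by
    rw [fR, hpow]
  set T' := T.image (scl (s ^ a)⁻¹) with hT'
  have hinj : Function.Injective (scl (s ^ a)⁻¹) := scl_inj (inv_ne_zero hsa)
  have hT'pre : ∀ x ∈ T', Pre (fR P Q N e s') x := by
    intro x hx
    obtain ⟨y, hy, rfl⟩ := Finset.mem_image.mp hx
    obtain ⟨m, n, hmn, heq⟩ := hT y hy
    refine ⟨m, n, hmn, ?_⟩
    have h1 := fab_conj_iter hdeg a b (by omega : 1 ≤ e) hs0 (scl (s ^ a)⁻¹ y) m
    have h2 := fab_conj_iter hdeg a b (by omega : 1 ≤ e) hs0 (scl (s ^ a)⁻¹ y) n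
    rw [scl_scl hsa] at h1 h2
    rw [h1, h2, hfun] at heq
    exact scl_inj hsa heq
  obtain ⟨h1, h2⟩ := hEB s' T' hs' hT'pre
  refine ⟨?_, fun hsE => ?_⟩
  · rwa [hT', Finset.card_image_of_injective _ hinj] at h1
  · have := h2 (hs'E hsE)
    rwa [hT', Finset.image_eq_empty] at this

end Pool.Agent.H422.MR
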